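import Mathlib

/-!
The certificate checker for the normal `K_4` game (first player wins on every board with at least
11 vertices).  Everything is written with recursors and the accelerated operations of `ℕ`, so that
the kernel can evaluate it quickly.
-/

namespace Pool.Agent.K4G

/-- Header table: label count and the packed edge lists of the two players. -/
inductive Tab : Type
  | leaf (v la lb : ℕ) : Tab
  | node (l r : Tab) : Tab

/-- The entry with index `j`, passed to the continuation `k`. -/
noncomputable def tget (T : Tab) : ℕ → (ℕ → ℕ → ℕ → Bool) → Bool :=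
  Tab.rec (motive := fun _ => ℕ → (ℕ → ℕ → ℕ → Bool) → Bool)
    (fun v la lb _ k => k v la lb)
    (fun _ _ ihl ihr j k => cond (Nat.beq (Nat.land j 1) 0) (ihl (Nat.shiftRight j 1) k)
      (ihr (Nat.shiftRight j 1) k)) T

/-- bit `c` of `M` -/
def bt (M c : ℕ) : Bool := Nat.beq (Nat.land (Nat.shiftRight M c) 1) 1

def hi (c : ℕ) : ℕ := Nat.shiftRight c 4
def lo (c : ℕ) : ℕ := Nat.land c 15
def cd (x y : ℕ) : ℕ := Nat.add (Nat.mul 16 x) y

/-- row `x` of the matrix `M` -/
def row (M x : ℕ) : ℕ := Nat.land (Nat.shiftRight M (Nat.mul 16 x)) 65535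

/-- add the edge `x y` to the matrix `M` -/
def adx (M x y : ℕ) : ℕ :=
  Nat.lor M (Nat.lor (Nat.shiftLeft 1 (cd x y)) (Nat.shiftLeft 1 (cd y x)))

/-- add the edge with code `c` -/
def ad (M c : ℕ) : ℕ := adx M (hi c) (lo c)

/-- `c` is the code of a pair `x < y < v` -/
def vl (v c : ℕ) : Bool :=
  cond (Nat.ble (Nat.succ (hi c)) (lo c)) (Nat.ble (Nat.succ (lo c)) v) false

/-- the five edges other than `c` of the `K_4` on `c` and `d` are in `M` -/
def k4c (M c d : ℕ) : Bool :=
  cond (bt M d) (cond (bt M (cd (hi c) (hi d))) (cond (bt M (cd (hi c) (lo d)))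
    (cond (bt M (cd (lo c) (hi d))) (bt M (cd (lo c) (lo d))) false) false) false) false

/-- all pairs of bits of `m` are edges of `O` -/
noncomputable def ntm (O : ℕ) (fuel : ℕ) : ℕ → Bool :=
  Nat.rec (motive := fun _ => ℕ → Bool) (fun m => Nat.beq m 0)
    (fun _ ih m => cond (Nat.beq m 0) true
      ((fun m' => cond (Nat.beq (Nat.land m' (row O (Nat.log2 m))) m') (ih m') false)
        (Nat.xor m (Nat.shiftLeft 1 (Nat.log2 m))))) fuel

/-- no free pair completes a `K_4` in `M`, whose edges are in the list `l`; `O` is the matrix of
all claimed edges -/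
noncomputable def nt (O M : ℕ) (l : List ℕ) : Bool :=
  List.rec (motive := fun _ => Bool) true
    (fun c _ ih => cond (ntm O 16 (Nat.land (row M (hi c)) (row M (lo c)))) ih false) l

/-- packed bytes (no zero byte) as a list -/
noncomputable def unpk (fuel : ℕ) : ℕ → List ℕ :=
  Nat.rec (motive := fun _ => ℕ → List ℕ) (fun _ => [])
    (fun _ ih n => cond (Nat.beq n 0) [] (Nat.land n 255 :: ih (Nat.shiftRight n 8))) fuel

/-- matrix of the list of edges `l`, with labels permuted by `p` (nibbles) -/
def nib (p i : ℕ) : ℕ := Nat.land (Nat.shiftRight p (Nat.mul 4 i)) 15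

noncomputable def matp (p : ℕ) (l : List ℕ) : ℕ :=
  List.rec (motive := fun _ => ℕ) 0 (fun c _ ih => adx ih (nib p (hi c)) (nib p (lo c))) l

/-- the identity permutation, as nibbles -/
def idp : ℕ := 0xFEDCBA9876543210

/-- union of the bits `p i`, `i < v` -/
noncomputable def pmask (p v : ℕ) : ℕ :=
  Nat.rec (motive := fun _ => ℕ) 0 (fun i ih => Nat.lor ih (Nat.shiftLeft 1 (nib p i))) v

/-- link check: entry `j` (relabelled by `p`) is the position `v MA MB` -/
noncomputable def lnk (T : Tab) (j0 n j p v MA MB : ℕ) : Bool :=
  cond (Nat.ble (Nat.succ j0) j) (cond (Nat.ble (Nat.succ j) n)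
    (tget T j (fun v' la lb => cond (Nat.beq v' v)
      (cond (Nat.beq (Nat.succ (pmask p v)) (Nat.shiftLeft 1 v))
        (cond (Nat.beq (matp p (unpk 64 la)) MA) (Nat.beq (matp p (unpk 64 lb)) MB) false)
          false) false)) false) false

/-- one plan for the first player, read from the byte stream `s`; the rest of the stream is passed
to `k` -/
noncomputable def plan (T : Tab) (j0 n : ℕ) (fuel : ℕ) :
    ℕ → ℕ → ℕ → ℕ → List ℕ → (ℕ → Bool) → Bool :=
  Nat.rec (motive := fun _ => ℕ → ℕ → ℕ → ℕ → List ℕ → (ℕ → Bool) → Bool)
    (fun _ _ _ _ _ _ => false)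
    (fun _ ih s v MA MB lb k =>
      (fun t e s1 =>
        cond (Nat.beq t 1)
          -- threat
          ((fun f d =>
            cond (vl v e) (cond (vl v f) (cond (bt (Nat.lor MA MB) e) false
              (cond (bt (Nat.lor (ad MA e) MB) f) false
                (cond (k4c (ad (ad MA e) f) f d)
                  (cond (nt (Nat.lor (ad MA e) MB) MB lb)
                    (ih (Nat.shiftRight s1 16) v (ad MA e) (ad MB f) (f :: lb) k)
                      false) false))) false) false)
            (Nat.land s1 255) (Nat.land (Nat.shiftRight s1 8) 255))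
          (cond (Nat.beq t 2)
            -- win
            ((fun d =>
              cond (vl v e) (cond (bt (Nat.lor MA MB) e) false
                (cond (k4c (ad MA e) e d) (k (Nat.shiftRight s1 8)) false)) false)
              (Nat.land s1 255))
            (cond (Nat.beq t 3)
              -- link
              ((fun v' =>
                cond (cond (Nat.beq v' v) true (Nat.ble v 10))
                  (cond (vl v' e) (cond (bt (Nat.lor MA MB) e) false
                    (cond (lnk T j0 n (Nat.land s1 65535) (Nat.shiftRight (Nat.land s1 0xFFFFFFFFFFFFFFFFFFFF) 16) v' (ad MA e) MB)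
                      (k (Nat.shiftRight s1 80)) false)) false) false)
                (cond (Nat.beq (lo e) v) (Nat.succ v) v))
              false)))
        (Nat.land s 255) (Nat.land (Nat.shiftRight s 8) 255) (Nat.shiftRight s 16)) fuel

/-- the forcing sequence of a cover; collects the used edges `U` and the last matrix `Z` of the
second player at a threat -/
noncomputable def cov (fuel : ℕ) :
    ℕ → ℕ → ℕ → ℕ → List ℕ → ℕ → ℕ → (ℕ → ℕ → ℕ → Bool) → Bool :=
  Nat.rec (motive := fun _ => ℕ → ℕ → ℕ → ℕ → List ℕ → ℕ → ℕ → (ℕ → ℕ → ℕ → Bool) → Bool)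
    (fun _ _ _ _ _ _ _ _ => false)
    (fun _ ih s v MA MB lb U Z k =>
      (fun t e s1 =>
        cond (Nat.beq t 1)
          -- threat
          ((fun f d =>
            cond (vl v e) (cond (vl v f) (cond (bt (Nat.lor MA MB) e) false
              (cond (bt (Nat.lor (ad MA e) MB) f) false
                (cond (k4c (ad (ad MA e) f) f d)
                  (cond (nt (Nat.lor (ad MA e) MB) MB lb)
                    (ih (Nat.shiftRight s1 16) v (ad MA e) (ad MB f) (f :: lb)
                      (ad (ad U e) f) MB k)
                      false) false))) false) false)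
            (Nat.land s1 255) (Nat.land (Nat.shiftRight s1 8) 255))
          (cond (Nat.beq t 2)
            -- win
            ((fun d =>
              cond (vl v e) (cond (bt (Nat.lor MA MB) e) false
                (cond (k4c (ad MA e) e d) (k (Nat.shiftRight s1 8) (ad U e) Z) false)) false)
              (Nat.land s1 255))
            false))
        (Nat.land s 255) (Nat.land (Nat.shiftRight s 8) 255) (Nat.shiftRight s 16)) fuel

/-- the children of an entry: first byte the reply `f` of the second player (`0` ends the list),
then the plan; the set of treated replies is passed to `k` -/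
noncomputable def chi (T : Tab) (j0 n v MA MB : ℕ) (lb : List ℕ) (fuel : ℕ) :
    ℕ → ℕ → (ℕ → Bool) → Bool :=
  Nat.rec (motive := fun _ => ℕ → ℕ → (ℕ → Bool) → Bool)
    (fun _ _ _ => false)
    (fun _ ih s C k =>
      (fun f s1 =>
        cond (Nat.beq f 0) (k C)
          ((fun v' =>
            cond (vl v' f)
              (plan T j0 n 64 s1 v' MA (ad MB f) (f :: lb) (fun s2 => ih s2 (ad C f) k))
              false)
            (cond (Nat.ble (Nat.succ (lo f)) v) v (cond (Nat.beq (lo f) v) (Nat.succ v)
              (cond (Nat.beq (hi f) v) (Nat.succ (Nat.succ v)) v)))))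
        (Nat.land s 255) (Nat.shiftRight s 8)) fuel

/-- all `i < n` satisfy `f` -/
noncomputable def allB (f : ℕ → Bool) (n : ℕ) : Bool :=
  Nat.rec (motive := fun _ => Bool) true (fun i ih => cond (f i) ih false) n

/-- the pair `x y` is harmless for the forcing sequence with last matrix `Z` -/
def hm (Z x y : ℕ) : Bool :=
  (fun m => cond (Nat.beq m 0) true
    (cond (Nat.beq m (Nat.shiftLeft 1 (Nat.log2 m)))
      (Nat.beq (Nat.land (row Z (Nat.log2 m)) (Nat.lor (row Z x) (row Z y))) 0) false))
    (Nat.land (row Z x) (row Z y))

/-- final check of an entry with a cover -/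
noncomputable def fin1 (v W U Z : ℕ) : Bool :=
  allB (fun y => allB (fun x => cond (bt W (cd x y)) true
    (cond (bt U (cd x y)) false (hm Z x y))) y) v

/-- final check of an entry without a cover -/
noncomputable def fin0 (v W C : ℕ) : Bool :=
  cond (allB (fun y => allB (fun x => bt W (cd x y)) y) v)
    (cond (allB (fun x => bt C (cd x v)) v) (bt C (cd v (Nat.succ v))) false) false

/-- not all edges are claimed -/
noncomputable def some0 (v O : ℕ) : Bool :=
  cond (Nat.ble v 10) true
    (cond (allB (fun y => allB (fun x => bt O (cd x y)) y) v) false true)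

/-- all codes are valid -/
noncomputable def vls (v : ℕ) (l : List ℕ) : Bool :=
  List.rec (motive := fun _ => Bool) true (fun c _ ih => cond (vl v c) ih false) l

/-- check of the entry `j0` with body `s`; the first byte is `0` if there is a cover -/
noncomputable def chk (T : Tab) (n j0 s : ℕ) : Bool :=
  tget T j0 (fun v la lb =>
    (fun A B =>
      (fun MA MB =>
        cond (Nat.ble 1 v) (cond (Nat.ble v 14) (cond (vls v A) (cond (vls v B)
        (cond (nt (Nat.lor MA MB) MB B)
        (cond (some0 v (Nat.lor MA MB))
          (cond (Nat.beq (Nat.land s 255) 1)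
            (cov 64 (Nat.shiftRight s 8) v MA MB B 0 MB (fun s1 U Z =>
              chi T j0 n v MA MB B 100 s1 0 (fun C => fin1 v (Nat.lor (Nat.lor MA MB) C) U Z)))
            (chi T j0 n v MA MB B 100 (Nat.shiftRight s 8) 0
              (fun C => fin0 v (Nat.lor (Nat.lor MA MB) C) C)))
          false) false) false) false) false) false)
        (matp idp A) (matp idp B))
      (unpk 64 la) (unpk 64 lb))

/-- check of consecutive entries -/
noncomputable def chkL (T : Tab) (n : ℕ) (l : List ℕ) : ℕ → Bool :=
  List.rec (motive := fun _ => ℕ → Bool) (fun _ => true)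
    (fun s _ ih j => cond (chk T n j s) (ih (Nat.succ j)) false) l

end Pool.Agent.K4G
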