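import Pool.Agent.Lib_helper60.K4.Sem
import Pool.Agent.Lib_helper60.K4.Chk

/-!
Positions represented by matrices (packed in natural numbers), and soundness of the elementary
checks.
-/

namespace Pool.Agent.K4G

variable {N : ℕ}

/-! ### bits -/

theorem cond_ff {c b : Bool} (h : cond c b false = true) : c = true ∧ b = true := by
  cases c <;> simp_all

theorem cond_tt {c b : Bool} (h : cond c true b = true) : c = true ∨ b = true := by
  cases c <;> simp_all

theorem cond_nf {c b : Bool} (h : cond c false b = true) : c = false ∧ b = true := by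
  cases c <;> simp_all

theorem beq_true {a b : ℕ} (h : Nat.beq a b = true) : a = b := Nat.eq_of_beq_eq_true h

theorem ble_true {a b : ℕ} (h : Nat.ble a b = true) : a ≤ b := Nat.le_of_ble_eq_true h

theorem bt_eq (M c : ℕ) : bt M c = M.testBit c := by
  have h : (M >>> c) &&& 1 = ((M >>> c) % 2) := Nat.and_one_is_mod _
  have h2 : bt M c = Nat.beq ((M >>> c) &&& 1) 1 := rfl
  rw [h2, h, Nat.testBit_eq_decide_div_mod_eq, Nat.shiftRight_eq_div_pow]
  rcases Nat.mod_two_eq_zero_or_one (M / 2 ^ c) with h3 | h3 <;> rw [h3] <;> rfl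

theorem tb_shl (i j : ℕ) : (Nat.shiftLeft 1 i).testBit j = decide (i = j) := by
  have h : Nat.shiftLeft 1 i = 2 ^ i := by
    have : Nat.shiftLeft 1 i = 1 <<< i := rfl
    rw [this, Nat.shiftLeft_eq, one_mul]
  rw [h, Nat.testBit_two_pow]

theorem tb_lor (a b i : ℕ) : (Nat.lor a b).testBit i = (a.testBit i || b.testBit i) :=
  Nat.testBit_or a b i

theorem tb_land (a b i : ℕ) : (Nat.land a b).testBit i = (a.testBit i && b.testBit i) :=
  Nat.testBit_and a b i

theorem tb_xor (a b i : ℕ) : (Nat.xor a b).testBit i = (a.testBit i ^^ b.testBit i) :=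
  Nat.testBit_xor a b i

theorem tb_row (M x y : ℕ) : (row M x).testBit y = true ↔ y < 16 ∧ M.testBit (16 * x + y) = true := by
  have h : row M x = (M >>> (16 * x)) &&& (2 ^ 16 - 1) := rfl
  rw [h, Nat.testBit_and, Nat.testBit_shiftRight, Nat.testBit_two_pow_sub_one]
  simp only [Bool.and_eq_true, decide_eq_true_eq]
  exact and_comm

theorem lo_lt (c : ℕ) : lo c < 16 := by
  have h : lo c = c &&& 15 := rfl
  have h2 : c &&& 15 ≤ 15 := Nat.and_le_right
  omega

theorem lo_eq (c : ℕ) : lo c = c % 16 := by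
  have h : lo c = c &&& (2 ^ 4 - 1) := rfl
  rw [h, Nat.and_two_pow_sub_one_eq_mod]

theorem hi_eq (c : ℕ) : hi c = c / 16 := by
  have h : hi c = c >>> 4 := rfl
  rw [h, Nat.shiftRight_eq_div_pow]

theorem cd_eq (x y : ℕ) : cd x y = 16 * x + y := rfl

theorem cd_hi_lo (c : ℕ) : cd (hi c) (lo c) = c := by
  rw [cd_eq, lo_eq, hi_eq]; omega

theorem hi_cd {x y : ℕ} (hy : y < 16) : hi (cd x y) = x := by
  rw [cd_eq, hi_eq]; omega

theorem lo_cd {x y : ℕ} (hy : y < 16) : lo (cd x y) = y := by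
  rw [cd_eq, lo_eq]; omega

theorem nib_lt (p i : ℕ) : nib p i < 16 := by
  have h : nib p i = (p >>> (4 * i)) &&& 15 := rfl
  have h2 : (p >>> (4 * i)) &&& 15 ≤ 15 := Nat.and_le_right
  omega

theorem tb_adx (M x y p q : ℕ) (hx : x < 16) (hy : y < 16) (_hp : p < 16) (hq : q < 16) :
    (adx M x y).testBit (16 * p + q) = true ↔
      (M.testBit (16 * p + q) = true ∨ (p = x ∧ q = y) ∨ (p = y ∧ q = x)) := by
  have h : adx M x y = Nat.lor M (Nat.lor (Nat.shiftLeft 1 (cd x y)) (Nat.shiftLeft 1 (cd y x))) :=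
    rfl
  rw [h, tb_lor, tb_lor, tb_shl, tb_shl, cd_eq, cd_eq]
  simp only [Bool.or_eq_true, decide_eq_true_eq]
  constructor
  · rintro (h | h | h)
    · exact Or.inl h
    · right; left; omega
    · right; right; omega
  · rintro (h | ⟨h1, h2⟩ | ⟨h1, h2⟩)
    · exact Or.inl h
    · right; left; omega
    · right; right; omega

theorem vl_iff (v c : ℕ) : vl v c = true ↔ hi c < lo c ∧ lo c < v := by
  constructor
  · intro h
    obtain ⟨h1, h2⟩ := cond_ff (show cond _ (Nat.ble (Nat.succ (lo c)) v) false = true from h)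
    exact ⟨ble_true h1, ble_true h2⟩
  · rintro ⟨h1, h2⟩
    show cond _ (Nat.ble (Nat.succ (lo c)) v) false = true
    rw [Nat.ble_eq_true_of_le (show Nat.succ (hi c) ≤ lo c from h1),
      Nat.ble_eq_true_of_le (show Nat.succ (lo c) ≤ v from h2)]
    rfl

/-! ### representation -/

/-- the labels below `v` are sent to different vertices -/
def Inj (φ : ℕ → Fin N) (v : ℕ) : Prop := ∀ x < v, ∀ y < v, φ x = φ y → x = y

/-- the edge with code `c` -/
def ed (φ : ℕ → Fin N) (c : ℕ) : Sym2 (Fin N) := s(φ (hi c), φ (lo c))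

/-- the matrix `M` on the labels below `v` represents the edge set `S` -/
def Rep (φ : ℕ → Fin N) (v M : ℕ) (S : Finset (Sym2 (Fin N))) : Prop :=
  (∀ x < 16, ∀ y < 16, (M.testBit (16 * x + y) = true ↔
    (x < v ∧ y < v ∧ x ≠ y ∧ s(φ x, φ y) ∈ S))) ∧
  (∀ e ∈ S, ∃ x < v, ∃ y < v, x ≠ y ∧ e = s(φ x, φ y))

/-- the list `l` of codes represents the edge set `S` -/
def RepL (φ : ℕ → Fin N) (l : List ℕ) (S : Finset (Sym2 (Fin N))) : Prop :=
  ∀ e, e ∈ S ↔ ∃ c ∈ l, e = ed φ c

theorem inj_eq {φ : ℕ → Fin N} {v : ℕ} (hi : Inj φ v) {x y p q : ℕ} (hx : x < v) (hy : y < v)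
    (hp : p < v) (hq : q < v) (h : s(φ x, φ y) = s(φ p, φ q)) :
    (x = p ∧ y = q) ∨ (x = q ∧ y = p) := by
  rw [Sym2.eq_iff] at h
  rcases h with ⟨h1, h2⟩ | ⟨h1, h2⟩
  · exact Or.inl ⟨hi _ hx _ hp h1, hi _ hy _ hq h2⟩
  · exact Or.inr ⟨hi _ hx _ hq h1, hi _ hy _ hp h2⟩

theorem rep_insert {φ : ℕ → Fin N} {v M c : ℕ} {S : Finset (Sym2 (Fin N))} (hi' : Inj φ v)
    (hr : Rep φ v M S) (hc : vl v c = true) : Rep φ v (ad M c) (insert (ed φ c) S) := by
  obtain ⟨hc1, hc2⟩ := (vl_iff v c).1 hc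
  have hlo := lo_lt c
  constructor
  · intro x hx y hy
    have h1 : ad M c = adx M (hi c) (lo c) := rfl
    rw [h1, tb_adx _ _ _ _ _ (by omega) hlo hx hy, hr.1 x hx y hy, Finset.mem_insert]
    constructor
    · rintro (⟨h1, h2, h3, h4⟩ | ⟨rfl, rfl⟩ | ⟨rfl, rfl⟩)
      · exact ⟨h1, h2, h3, Or.inr h4⟩
      · exact ⟨by omega, by omega, by omega, Or.inl rfl⟩
      · exact ⟨by omega, by omega, by omega, Or.inl Sym2.eq_swap⟩
    · rintro ⟨h1, h2, h3, h4 | h4⟩
      · exact Or.inr (inj_eq hi' h1 h2 (by omega) (by omega) h4)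
      · exact Or.inl ⟨h1, h2, h3, h4⟩
  · intro e he
    rw [Finset.mem_insert] at he
    rcases he with rfl | he
    · exact ⟨hi c, by omega, lo c, hc2, by omega, rfl⟩
    · exact hr.2 e he

theorem rep_bt {φ : ℕ → Fin N} {v M c : ℕ} {S : Finset (Sym2 (Fin N))}
    (hr : Rep φ v M S) (hc : vl v c = true) : bt M c = true ↔ ed φ c ∈ S := by
  obtain ⟨hc1, hc2⟩ := (vl_iff v c).1 hc
  have hlo := lo_lt c
  rw [bt_eq]
  have h := hr.1 (hi c) (by omega) (lo c) hlo
  rw [← cd_eq, cd_hi_lo] at h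
  rw [h]
  exact ⟨fun h => h.2.2.2, fun h => ⟨by omega, hc2, by omega, h⟩⟩

theorem ed_diag {φ : ℕ → Fin N} {v c : ℕ} (hi' : Inj φ v) (hc : vl v c = true) :
    ¬ (ed φ c).IsDiag := by
  obtain ⟨hc1, hc2⟩ := (vl_iff v c).1 hc
  intro h
  have h2 : φ (hi c) = φ (lo c) := by simpa [ed] using h
  have := hi' _ (by omega) _ hc2 h2
  omega

theorem rep_free {φ : ℕ → Fin N} {v MA MB c : ℕ} {A B : Finset (Sym2 (Fin N))} (hi' : Inj φ v)
    (hA : Rep φ v MA A) (hB : Rep φ v MB B) (hc : vl v c = true)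
    (hb : bt (Nat.lor MA MB) c = false) : Free A B (ed φ c) := by
  refine ⟨ed_diag hi' hc, ?_, ?_⟩
  · intro h
    have h1 := (rep_bt hA hc).2 h
    rw [bt_eq] at h1 hb
    rw [tb_lor, h1] at hb
    simp at hb
  · intro h
    have h1 := (rep_bt hB hc).2 h
    rw [bt_eq] at h1 hb
    rw [tb_lor, h1] at hb
    simp at hb

theorem k4_of {S : Finset (Sym2 (Fin N))} {a b c d : Fin N} (hab : a ≠ b) (hac : a ≠ c)
    (had : a ≠ d) (hbc : b ≠ c) (hbd : b ≠ d) (hcd : c ≠ d) (h1 : s(a, b) ∈ S) (h2 : s(a, c) ∈ S)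
    (h3 : s(a, d) ∈ S) (h4 : s(b, c) ∈ S) (h5 : s(b, d) ∈ S) (h6 : s(c, d) ∈ S) : K4 S := by
  refine ⟨{a, b, c, d}, ?_, ?_⟩
  · rw [Finset.card_insert_of_notMem, Finset.card_insert_of_notMem, Finset.card_insert_of_notMem,
      Finset.card_singleton]
    · simpa using hcd
    · simp [hbc, hbd]
    · simp [hab, hac, had]
  · intro x hx y hy hxy
    simp only [Finset.mem_insert, Finset.mem_singleton] at hx hy
    rcases hx with rfl | rfl | rfl | rfl <;> rcases hy with rfl | rfl | rfl | rfl <;>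
      first | exact absurd rfl hxy | assumption | (rw [Sym2.eq_swap]; assumption)

theorem k4c_sound {φ : ℕ → Fin N} {v M c d : ℕ} {S : Finset (Sym2 (Fin N))} (hi' : Inj φ v)
    (hr : Rep φ v M S) (hc : vl v c = true) (hcS : ed φ c ∈ S) (hd : d < 256)
    (h : k4c M c d = true) : K4 S := by
  obtain ⟨hc1, hc2⟩ := (vl_iff v c).1 hc
  have hlo := lo_lt c
  have hlod := lo_lt d
  have hhid : hi d < 16 := by rw [hi_eq]; omega
  obtain ⟨h1, h⟩ := cond_ff (show cond (bt M d) _ false = true from h)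
  obtain ⟨h2, h⟩ := cond_ff h
  obtain ⟨h3, h⟩ := cond_ff h
  obtain ⟨h4, h5⟩ := cond_ff h
  rw [bt_eq, cd_eq] at h2 h3 h4 h5
  rw [bt_eq, ← cd_hi_lo d, cd_eq] at h1
  obtain ⟨a1, a2, a3, a4⟩ := (hr.1 _ hhid _ hlod).1 h1
  obtain ⟨b1, b2, b3, b4⟩ := (hr.1 _ (by omega) _ hhid).1 h2
  obtain ⟨c1, c2, c3, c4⟩ := (hr.1 _ (by omega) _ hlod).1 h3
  obtain ⟨d1, d2, d3, d4⟩ := (hr.1 _ hlo _ hhid).1 h4
  obtain ⟨e1, e2, e3, e4⟩ := (hr.1 _ hlo _ hlod).1 h5
  refine k4_of (a := φ (hi c)) (b := φ (lo c)) (c := φ (hi d)) (d := φ (lo d)) ?_ ?_ ?_ ?_ ?_ ?_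
    hcS b4 c4 d4 e4 a4
  · intro h; have := hi' _ (by omega) _ hc2 h; omega
  · intro h; exact b3 (hi' _ b1 _ b2 h)
  · intro h; exact c3 (hi' _ c1 _ c2 h)
  · intro h; exact d3 (hi' _ d1 _ d2 h)
  · intro h; exact e3 (hi' _ e1 _ e2 h)
  · intro h; exact a3 (hi' _ a1 _ a2 h)

/-! ### no threat of the second player -/

theorem ntm_sound (O : ℕ) : ∀ (fuel m : ℕ), ntm O fuel m = true → ∀ p q, p ≠ q →
    m.testBit p = true → m.testBit q = true → p < 16 → q < 16 →
    O.testBit (16 * p + q) = true ∨ O.testBit (16 * q + p) = true := by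
  intro fuel
  induction fuel with
  | zero =>
    intro m h p q _ hp
    have h1 : m = 0 := beq_true h
    rw [h1] at hp
    simp at hp
  | succ fuel ih =>
    intro m h p q hpq hp hq hp16 hq16
    have h' : cond (Nat.beq m 0) true
      (cond (Nat.beq (Nat.land (Nat.xor m (Nat.shiftLeft 1 (Nat.log2 m))) (row O (Nat.log2 m)))
        (Nat.xor m (Nat.shiftLeft 1 (Nat.log2 m))))
        (ntm O fuel (Nat.xor m (Nat.shiftLeft 1 (Nat.log2 m)))) false) = true := h
    rcases cond_tt h' with h0 | h0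
    · have h1 : m = 0 := beq_true h0
      rw [h1] at hp
      simp at hp
    · obtain ⟨h1, h2⟩ := cond_ff h0
      have h1 := beq_true h1
      set x := Nat.log2 m
      set m' := Nat.xor m (Nat.shiftLeft 1 x) with hm'
      have key : ∀ r, r ≠ x → m.testBit r = true → m'.testBit r = true := by
        intro r hr hmr
        rw [hm', tb_xor, tb_shl, hmr]
        simp [hr.symm]
      have key2 : ∀ r, m'.testBit r = true → O.testBit (16 * x + r) = true := by
        intro r hr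
        rw [← h1, tb_land, Bool.and_eq_true, tb_row] at hr
        exact hr.2.2
      by_cases hpx : p = x
      · left
        rw [hpx]
        exact key2 q (key q (by omega) hq)
      · by_cases hqx : q = x
        · right
          rw [hqx]
          exact key2 p (key p hpx hp)
        · exact ih m' h2 p q hpq (key p hpx hp) (key q hqx hq) hp16 hq16

theorem nt_all (O M : ℕ) : ∀ l : List ℕ, nt O M l = true → ∀ c ∈ l,
    ntm O 16 (Nat.land (row M (hi c)) (row M (lo c))) = true := by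
  intro l
  induction l with
  | nil => intro _ c hc; simp at hc
  | cons a l ih =>
    intro h c hc
    have h' : cond (ntm O 16 (Nat.land (row M (hi a)) (row M (lo a)))) (nt O M l) false = true := h
    obtain ⟨h1, h2⟩ := cond_ff h'
    rcases List.mem_cons.1 hc with rfl | hc
    · exact h1
    · exact ih h2 c hc

theorem nt_sound {φ : ℕ → Fin N} {v MA MB : ℕ} {l : List ℕ} {A B : Finset (Sym2 (Fin N))}
    (hv : v ≤ 16) (hA : Rep φ v MA A) (hB : Rep φ v MB B)
    (hl : ∀ e ∈ B, ∃ c ∈ l, vl v c = true ∧ e = ed φ c) (hk : ¬ K4 B)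
    (h : nt (Nat.lor MA MB) MB l = true) : NT A B := by
  intro g hg hK
  obtain ⟨S, hS, hall⟩ := hK
  have hall' : ∀ a ∈ S, ∀ b ∈ S, a ≠ b → s(a, b) ≠ g → s(a, b) ∈ B := by
    intro a ha b hb hab hne
    have := hall a ha b hb hab
    rw [Finset.mem_insert] at this
    exact this.resolve_left hne
  by_cases hin : ∃ x ∈ S, ∃ y ∈ S, x ≠ y ∧ s(x, y) = g
  · obtain ⟨x, hx, y, hy, hxy, hgxy⟩ := hin
    have hy' : y ∈ S.erase x := Finset.mem_erase.2 ⟨hxy.symm, hy⟩
    have hc : ((S.erase x).erase y).card = 2 := by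
      rw [Finset.card_erase_of_mem hy', Finset.card_erase_of_mem hx, hS]
    obtain ⟨u, w, huw, huwS⟩ := Finset.card_eq_two.1 hc
    have hu : u ∈ (S.erase x).erase y := by rw [huwS]; simp
    have hw : w ∈ (S.erase x).erase y := by rw [huwS]; simp
    simp only [Finset.mem_erase] at hu hw
    obtain ⟨huy, hux, huS⟩ := hu
    obtain ⟨hwy, hwx, hwS⟩ := hw
    have exu : s(u, x) ∈ B := hall' _ huS _ hx hux (hgxy ▸ sne (Or.inl hux) (Or.inl huy))
    have exw : s(w, x) ∈ B := hall' _ hwS _ hx hwx (hgxy ▸ sne (Or.inl hwx) (Or.inl hwy))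
    have eyu : s(u, y) ∈ B := hall' _ huS _ hy huy (hgxy ▸ sne (Or.inl hux) (Or.inl huy))
    have eyw : s(w, y) ∈ B := hall' _ hwS _ hy hwy (hgxy ▸ sne (Or.inl hwx) (Or.inl hwy))
    have euw : s(u, w) ∈ B := hall' _ huS _ hwS huw (hgxy ▸ sne (Or.inl hux) (Or.inl huy))
    -- labels
    obtain ⟨p, hp, p', hp', hpp', hpe⟩ := hB.2 _ exu
    have hxl : ∃ p < v, φ p = x := by
      rw [Sym2.eq_iff] at hpe
      rcases hpe with ⟨_, h2⟩ | ⟨_, h2⟩
      · exact ⟨p', hp', h2.symm⟩
      · exact ⟨p, hp, h2.symm⟩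
    obtain ⟨q, hq, q', hq', hqq', hqe⟩ := hB.2 _ eyu
    have hyl : ∃ p < v, φ p = y := by
      rw [Sym2.eq_iff] at hqe
      rcases hqe with ⟨_, h2⟩ | ⟨_, h2⟩
      · exact ⟨q', hq', h2.symm⟩
      · exact ⟨q, hq, h2.symm⟩
    clear hpe hqe hpp' hqq' hp hp' hq hq' p p' q q'
    obtain ⟨p, hp, rfl⟩ := hxl
    obtain ⟨q, hq, rfl⟩ := hyl
    obtain ⟨c, hcl, hcv, hce⟩ := hl _ euw
    obtain ⟨hc1, hc2⟩ := (vl_iff v c).1 hcv
    have hm := nt_all _ _ l h c hcl
    have bit : ∀ r < v, ∀ z < v, s(φ z, φ r) ∈ B → φ z ≠ φ r → (row MB z).testBit r = true := by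
      intro r hr z hz hzr hne
      rw [tb_row]
      refine ⟨by omega, (hB.1 z (by omega) r (by omega)).2 ⟨hz, hr, ?_, hzr⟩⟩
      rintro rfl
      exact hne rfl
    have hpq : p ≠ q := fun h' => hxy (by rw [h'])
    have hends : (u = φ (hi c) ∧ w = φ (lo c)) ∨ (u = φ (lo c) ∧ w = φ (hi c)) := by
      have := hce
      rw [ed, Sym2.eq_iff] at this
      exact this
    have hbits : (Nat.land (row MB (hi c)) (row MB (lo c))).testBit p = true ∧
        (Nat.land (row MB (hi c)) (row MB (lo c))).testBit q = true := by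
      rw [tb_land, tb_land, Bool.and_eq_true, Bool.and_eq_true]
      rcases hends with ⟨rfl, rfl⟩ | ⟨rfl, rfl⟩
      · exact ⟨⟨bit p hp _ (by omega) exu hux, bit p hp _ hc2 exw hwx⟩,
          ⟨bit q hq _ (by omega) eyu huy, bit q hq _ hc2 eyw hwy⟩⟩
      · exact ⟨⟨bit p hp _ (by omega) exw hwx, bit p hp _ hc2 exu hux⟩,
          ⟨bit q hq _ (by omega) eyw hwy, bit q hq _ hc2 eyu huy⟩⟩
    have hO := ntm_sound _ _ _ hm p q hpq hbits.1 hbits.2 (by omega) (by omega)
    have hmem : s(φ p, φ q) ∈ A ∨ s(φ p, φ q) ∈ B := by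
      rcases hO with hO | hO
      · rw [tb_lor, Bool.or_eq_true, hA.1 p (by omega) q (by omega),
          hB.1 p (by omega) q (by omega)] at hO
        rcases hO with hO | hO
        · exact Or.inl hO.2.2.2
        · exact Or.inr hO.2.2.2
      · rw [tb_lor, Bool.or_eq_true, hA.1 q (by omega) p (by omega),
          hB.1 q (by omega) p (by omega)] at hO
        rw [Sym2.eq_swap]
        rcases hO with hO | hO
        · exact Or.inl hO.2.2.2
        · exact Or.inr hO.2.2.2
    rw [hgxy] at hmem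
    rcases hmem with hmem | hmem
    · exact hg.2.1 hmem
    · exact hg.2.2 hmem
  · apply hk
    refine ⟨S, hS, fun a ha b hb hab => hall' a ha b hb hab ?_⟩
    intro h'
    exact hin ⟨a, ha, b, hb, hab, h'⟩

/-! ### lists and matrices -/

theorem tb_matp (π : ℕ) : ∀ (l : List ℕ) (x y : ℕ), x < 16 → y < 16 →
    ((matp π l).testBit (16 * x + y) = true ↔ ∃ c ∈ l, (x = nib π (hi c) ∧ y = nib π (lo c)) ∨
      (x = nib π (lo c) ∧ y = nib π (hi c))) := by
  intro l
  induction l with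
  | nil =>
    intro x y _ _
    have h : matp π [] = 0 := rfl
    rw [h]
    simp
  | cons a l ih =>
    intro x y hx hy
    have h : matp π (a :: l) = adx (matp π l) (nib π (hi a)) (nib π (lo a)) := rfl
    rw [h, tb_adx _ _ _ _ _ (nib_lt _ _) (nib_lt _ _) hx hy, ih x y hx hy]
    simp only [List.mem_cons, exists_eq_or_imp]
    exact or_comm

theorem nib_idp {i : ℕ} (hi : i < 16) : nib idp i = i := by
  interval_cases i <;> rfl

theorem vls_all (v : ℕ) : ∀ l : List ℕ, vls v l = true → ∀ c ∈ l, vl v c = true := by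
  intro l
  induction l with
  | nil => intro _ c hc; simp at hc
  | cons a l ih =>
    intro h c hc
    have h' : cond (vl v a) (vls v l) false = true := h
    obtain ⟨h1, h2⟩ := cond_ff h'
    rcases List.mem_cons.1 hc with rfl | hc
    · exact h1
    · exact ih h2 c hc

theorem repL_rep {φ : ℕ → Fin N} {v : ℕ} {l : List ℕ} {S : Finset (Sym2 (Fin N))}
    (hi' : Inj φ v) (hl : ∀ c ∈ l, vl v c = true) (h : RepL φ l S) :
    Rep φ v (matp idp l) S := by
  constructor
  · intro x hx y hy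
    rw [tb_matp _ _ _ _ hx hy]
    constructor
    · rintro ⟨c, hc, hxy⟩
      obtain ⟨hc1, hc2⟩ := (vl_iff v c).1 (hl c hc)
      have hlo := lo_lt c
      rw [nib_idp (show hi c < 16 by omega), nib_idp hlo] at hxy
      have hmem : ed φ c ∈ S := (h _).2 ⟨c, hc, rfl⟩
      rcases hxy with ⟨rfl, rfl⟩ | ⟨rfl, rfl⟩
      · exact ⟨by omega, hc2, by omega, hmem⟩
      · exact ⟨hc2, by omega, by omega, by rw [Sym2.eq_swap]; exact hmem⟩
    · rintro ⟨hxv, hyv, hne, hmem⟩
      obtain ⟨c, hc, hce⟩ := (h _).1 hmem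
      obtain ⟨hc1, hc2⟩ := (vl_iff v c).1 (hl c hc)
      have hlo := lo_lt c
      refine ⟨c, hc, ?_⟩
      rw [nib_idp (show hi c < 16 by omega), nib_idp hlo]
      exact inj_eq hi' hxv hyv (by omega) hc2 hce
  · intro e he
    obtain ⟨c, hc, rfl⟩ := (h _).1 he
    obtain ⟨hc1, hc2⟩ := (vl_iff v c).1 (hl c hc)
    exact ⟨hi c, by omega, lo c, hc2, by omega, rfl⟩

theorem rep_repL {φ : ℕ → Fin N} {v π : ℕ} {l : List ℕ} {S : Finset (Sym2 (Fin N))}
    (hv : v ≤ 16) (h : Rep φ v (matp π l) S) : RepL (fun i => φ (nib π i)) l S := by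
  intro e
  constructor
  · intro he
    obtain ⟨x, hx, y, hy, hxy, rfl⟩ := h.2 e he
    have hb := (h.1 x (by omega) y (by omega)).2 ⟨hx, hy, hxy, he⟩
    rw [tb_matp _ _ _ _ (by omega) (by omega)] at hb
    obtain ⟨c, hc, ⟨rfl, rfl⟩ | ⟨rfl, rfl⟩⟩ := hb
    · exact ⟨c, hc, rfl⟩
    · exact ⟨c, hc, Sym2.eq_swap⟩
  · rintro ⟨c, hc, rfl⟩
    have hb : (matp π l).testBit (16 * nib π (hi c) + nib π (lo c)) = true := by
      rw [tb_matp _ _ _ _ (nib_lt _ _) (nib_lt _ _)]
      exact ⟨c, hc, Or.inl ⟨rfl, rfl⟩⟩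
    exact ((h.1 _ (nib_lt _ _) _ (nib_lt _ _)).1 hb).2.2.2

theorem tb_pmask (π : ℕ) : ∀ (v i : ℕ), (pmask π v).testBit i = true ↔ ∃ j < v, nib π j = i := by
  intro v
  induction v with
  | zero =>
    intro i
    have h : pmask π 0 = 0 := rfl
    rw [h]
    simp
  | succ v ih =>
    intro i
    have h : pmask π (v + 1) = Nat.lor (pmask π v) (Nat.shiftLeft 1 (nib π v)) := rfl
    rw [h, tb_lor, tb_shl, Bool.or_eq_true, ih i, decide_eq_true_eq]
    constructor
    · rintro (⟨j, hj, hji⟩ | h)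
      · exact ⟨j, by omega, hji⟩
      · exact ⟨v, by omega, h⟩
    · rintro ⟨j, hj, hji⟩
      by_cases hjv : j = v
      · right; rw [← hjv]; exact hji
      · left; exact ⟨j, by omega, hji⟩

theorem perm_sound {π v : ℕ} (h : Nat.beq (Nat.succ (pmask π v)) (Nat.shiftLeft 1 v) = true) :
    (∀ i < v, nib π i < v) ∧ ∀ i < v, ∀ j < v, nib π i = nib π j → i = j := by
  have h1 := beq_true h
  have h2 : Nat.shiftLeft 1 v = 2 ^ v := by
    have : Nat.shiftLeft 1 v = 1 <<< v := rfl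
    rw [this, Nat.shiftLeft_eq, one_mul]
  have h3 : pmask π v = 2 ^ v - 1 := by omega
  have h4 : ∀ i, (∃ j < v, nib π j = i) ↔ i < v := by
    intro i
    rw [← tb_pmask, h3, Nat.testBit_two_pow_sub_one]
    simp
  have h5 : ∀ i < v, nib π i < v := fun i hi => (h4 _).1 ⟨i, hi, rfl⟩
  refine ⟨h5, ?_⟩
  have himg : (Finset.range v).image (nib π) = Finset.range v := by
    ext i
    simp only [Finset.mem_image, Finset.mem_range]
    exact h4 i
  have hinj : Set.InjOn (nib π) (Finset.range v : Set ℕ) := by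
    rw [← Finset.card_image_iff, himg]
  intro i hi j hj hij
  exact hinj (by simpa using hi) (by simpa using hj) hij

/-! ### new vertices -/

theorem inj_update {φ : ℕ → Fin N} {v : ℕ} (hi' : Inj φ v) {b : Fin N} (hb : ∀ x < v, φ x ≠ b) :
    Inj (Function.update φ v b) (v + 1) := by
  intro x hx y hy h
  by_cases hxv : x = v
  · by_cases hyv : y = v
    · omega
    · exfalso
      rw [hxv, Function.update_self, Function.update_of_ne hyv] at h
      exact hb y (by omega) h.symm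
  · by_cases hyv : y = v
    · exfalso
      rw [hyv, Function.update_self, Function.update_of_ne hxv] at h
      exact hb x (by omega) h
    · rw [Function.update_of_ne hxv, Function.update_of_ne hyv] at h
      exact hi' x (by omega) y (by omega) h

theorem rep_update {φ : ℕ → Fin N} {v M : ℕ} {S : Finset (Sym2 (Fin N))} {b : Fin N}
    (hb : ∀ x < v, φ x ≠ b) (h : Rep φ v M S) :
    Rep (Function.update φ v b) (v + 1) M S := by
  have hnb : ∀ e ∈ S, b ∉ e := by
    intro e he hbe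
    obtain ⟨x, hx, y, hy, _, rfl⟩ := h.2 e he
    rw [Sym2.mem_iff] at hbe
    rcases hbe with hbe | hbe
    · exact hb x hx hbe.symm
    · exact hb y hy hbe.symm
  constructor
  · intro x hx y hy
    rw [h.1 x hx y hy]
    constructor
    · rintro ⟨h1, h2, h3, h4⟩
      refine ⟨by omega, by omega, h3, ?_⟩
      rwa [Function.update_of_ne (by omega), Function.update_of_ne (by omega)]
    · rintro ⟨h1, h2, h3, h4⟩
      by_cases hxv : x = v
      · exfalso
        rw [hxv, Function.update_self] at h4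
        exact hnb _ h4 (Sym2.mem_mk_left _ _)
      · by_cases hyv : y = v
        · exfalso
          rw [hyv, Function.update_self] at h4
          exact hnb _ h4 (Sym2.mem_mk_right _ _)
        · rw [Function.update_of_ne hxv, Function.update_of_ne hyv] at h4
          exact ⟨by omega, by omega, h3, h4⟩
  · intro e he
    obtain ⟨x, hx, y, hy, hxy, rfl⟩ := h.2 e he
    refine ⟨x, by omega, y, by omega, hxy, ?_⟩
    rw [Function.update_of_ne (by omega), Function.update_of_ne (by omega)]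

theorem ed_update {φ : ℕ → Fin N} {v c : ℕ} (hc : vl v c = true) (b : Fin N) :
    ed (Function.update φ v b) c = ed φ c := by
  obtain ⟨hc1, hc2⟩ := (vl_iff v c).1 hc
  rw [ed, ed, Function.update_of_ne (by omega), Function.update_of_ne (by omega)]

theorem exists_new {φ : ℕ → Fin N} {v : ℕ} (hv : v < N) : ∃ b : Fin N, ∀ x < v, φ x ≠ b := by
  by_contra hcon
  push Not at hcon
  have h1 : (Finset.univ : Finset (Fin N)) ⊆ (Finset.range v).image φ := by
    intro b _
    obtain ⟨x, hx, hxb⟩ := hcon b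
    exact Finset.mem_image.2 ⟨x, Finset.mem_range.2 hx, hxb⟩
  have h2 := Finset.card_le_card h1
  have h3 : ((Finset.range v).image φ).card ≤ v := by
    simpa using Finset.card_image_le (s := Finset.range v) (f := φ)
  rw [Finset.card_univ, Fintype.card_fin] at h2
  omega

theorem vl_mono {v v' c : ℕ} (h : v ≤ v') (hc : vl v c = true) : vl v' c = true := by
  rw [vl_iff] at *
  omega

end Pool.Agent.K4G
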