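import Pool.Agent.Lib_helper60.K4.Part0
import Pool.Agent.Lib_helper60.K4.Part1
import Pool.Agent.Lib_helper60.K4.Part2
import Pool.Agent.Lib_helper60.K4.Part3
import Pool.Agent.Lib_helper60.K4.Part4
import Pool.Agent.Lib_helper60.K4.Part5
import Pool.Agent.Lib_helper60.K4.Part6
import Pool.Agent.Lib_helper60.K4.Part7

/-! The complete certificate. -/

namespace Pool.Agent.K4G

theorem ok_all : Ok tab 5428 0 5428 :=
  (((((((part_0).trans part_1).trans part_2).trans part_3).trans part_4).trans part_5).trans part_6).trans part_7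

theorem wins : ∀ N, 11 ≤ N →
    FirstWins (⊤ : SimpleGraph (Fin 4)) (∅ : Finset (Sym2 (Fin N))) ∅ :=
  main_of ok_all (by norm_num) (by rfl)

end Pool.Agent.K4G
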