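import Mathlib

/-!
The strong (Maker-Maker, normal) graph game on the edges of a complete graph.
-/

namespace Pool.Agent.K4G

/-- `Owns G A`: the graph with edge set `A` contains a copy of `G`. -/
def Owns {k N : ℕ} (G : SimpleGraph (Fin k)) (A : Finset (Sym2 (Fin N))) : Prop :=
  G.IsContained (SimpleGraph.fromEdgeSet (A : Set (Sym2 (Fin N))))

/-- `e` is an edge of `K_N` which is claimed neither by the first player (edge set `A`) nor by the
second player (edge set `B`). -/
def Free {N : ℕ} (A B : Finset (Sym2 (Fin N))) (e : Sym2 (Fin N)) : Prop :=
  ¬ e.IsDiag ∧ e ∉ A ∧ e ∉ B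

/-- `FirstWins G A B`: in the normal game `(K_N, G)`, at the position in which the first player owns
`A`, the second player owns `B` and the first player is to move, the first player can force a win:
he can complete a copy of `G` now, or he has a move `e` after which the second player still has a
move, no move `f` of the second player completes a copy of `G` for her, and the position after any
such `f` is again a forced win of the first player. -/
inductive FirstWins {k N : ℕ} (G : SimpleGraph (Fin k)) :
    Finset (Sym2 (Fin N)) → Finset (Sym2 (Fin N)) → Prop
  | now {A B : Finset (Sym2 (Fin N))} (e : Sym2 (Fin N)) (he : Free A B e)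
      (hw : Owns G (insert e A)) : FirstWins G A B
  | step {A B : Finset (Sym2 (Fin N))} (e : Sym2 (Fin N)) (he : Free A B e)
      (hex : ∃ f, Free (insert e A) B f)
      (hno : ∀ f, Free (insert e A) B f → ¬ Owns G (insert f B))
      (hall : ∀ f, Free (insert e A) B f → FirstWins G (insert e A) (insert f B)) :
      FirstWins G A B

/-- The Win Number of `G`: the smallest `w` such that for every `N ≥ w` the first player can force
a win in the normal game `(K_N, G)`. -/
noncomputable def winNumber {k : ℕ} (G : SimpleGraph (Fin k)) : ℕ :=
  sInf {w : ℕ | ∀ N : ℕ, w ≤ N →
    FirstWins G (∅ : Finset (Sym2 (Fin N))) (∅ : Finset (Sym2 (Fin N)))}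

end Pool.Agent.K4G
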