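import Pool.Agent.Lib_helper60.K4.Game

/-!
Semantic lemmas on the `K_4` game: threats, forcing sequences and harmless moves.
-/

namespace Pool.Agent.K4G

variable {N : ℕ}

/-- four vertices, all of whose pairs are in `A` -/
def K4 (A : Finset (Sym2 (Fin N))) : Prop :=
  ∃ S : Finset (Fin N), S.card = 4 ∧ ∀ a ∈ S, ∀ b ∈ S, a ≠ b → s(a, b) ∈ A

theorem owns_iff (A : Finset (Sym2 (Fin N))) : Owns (⊤ : SimpleGraph (Fin 4)) A ↔ K4 A := by
  constructor
  · rintro ⟨f⟩
    refine ⟨Finset.univ.map ⟨f, f.injective⟩, by simp, ?_⟩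
    intro a ha b hb hab
    simp only [Finset.mem_map, Finset.mem_univ, true_and, Function.Embedding.coeFn_mk] at ha hb
    obtain ⟨i, rfl⟩ := ha
    obtain ⟨j, rfl⟩ := hb
    have hij : i ≠ j := fun h => hab (by rw [h])
    have h : (⊤ : SimpleGraph (Fin 4)).Adj i j := hij
    have h2 := f.toHom.map_adj h
    rw [SimpleGraph.fromEdgeSet_adj] at h2
    exact_mod_cast h2.1
  · rintro ⟨S, hS, hall⟩
    have e : Fin 4 ≃ S := (Fintype.equivFinOfCardEq (by simp [hS])).symm
    refine ⟨⟨⟨fun i => (e i : Fin N), ?_⟩, ?_⟩⟩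
    · intro a b hab
      have hne : (e a : Fin N) ≠ e b := by
        intro h
        exact hab (e.injective (Subtype.ext h))
      rw [SimpleGraph.fromEdgeSet_adj]
      exact ⟨by exact_mod_cast hall _ (e a).2 _ (e b).2 hne, hne⟩
    · intro a b h
      exact e.injective (Subtype.ext h)

/-- the first player, to move, wins -/
def W (A B : Finset (Sym2 (Fin N))) : Prop := FirstWins (⊤ : SimpleGraph (Fin 4)) A B

/-- the second player has no immediate win -/
def NT (A B : Finset (Sym2 (Fin N))) : Prop := ∀ h, Free A B h → ¬ K4 (insert h B)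

/-- the second player is to move, the first player wins -/
def GoodP2 (A B : Finset (Sym2 (Fin N))) : Prop :=
  (∃ f, Free A B f) ∧ NT A B ∧ ∀ f, Free A B f → W A (insert f B)

theorem W_now {A B : Finset (Sym2 (Fin N))} {e : Sym2 (Fin N)} (he : Free A B e)
    (h : K4 (insert e A)) : W A B :=
  FirstWins.now e he ((owns_iff _).2 h)

theorem W_move {A B : Finset (Sym2 (Fin N))} {e : Sym2 (Fin N)} (he : Free A B e)
    (h : GoodP2 (insert e A) B) : W A B :=
  FirstWins.step e he h.1 (fun f hf hk => h.2.1 f hf ((owns_iff _).1 hk)) h.2.2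

theorem W_thr {A B : Finset (Sym2 (Fin N))} {e f : Sym2 (Fin N)} (he : Free A B e)
    (hf : Free (insert e A) B f) (hk : K4 (insert f (insert e A))) (hnt : NT (insert e A) B)
    (hw : W (insert e A) (insert f B)) : W A B := by
  apply W_move he
  refine ⟨⟨f, hf⟩, hnt, ?_⟩
  intro g hg
  by_cases h : g = f
  · subst h; exact hw
  · apply W_now (e := f) _ hk
    refine ⟨hf.1, hf.2.1, ?_⟩
    rw [Finset.mem_insert, not_or]
    exact ⟨fun h' => h h'.symm, hf.2.2⟩

/-- a forcing sequence of the first player; `U` contains the used edges and `Z` the edges of the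
second player before each threat -/
inductive SeqOK : Finset (Sym2 (Fin N)) → Finset (Sym2 (Fin N)) → Set (Sym2 (Fin N)) →
    Set (Sym2 (Fin N)) → Prop
  | win {A B : Finset (Sym2 (Fin N))} {U Z : Set (Sym2 (Fin N))} (w : Sym2 (Fin N))
      (hw : Free A B w) (hk : K4 (insert w A)) (hU : w ∈ U) : SeqOK A B U Z
  | thr {A B : Finset (Sym2 (Fin N))} {U Z : Set (Sym2 (Fin N))} (e f : Sym2 (Fin N))
      (he : Free A B e) (hf : Free (insert e A) B f) (hk : K4 (insert f (insert e A)))
      (hnt : NT (insert e A) B) (heU : e ∈ U) (hfU : f ∈ U) (hZ : ∀ b ∈ B, b ∈ Z)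
      (hs : SeqOK (insert e A) (insert f B) U Z) : SeqOK A B U Z

/-- `x y` is harmless for a second player with edges in `Z`: there is no `K_4` through `x y`
with four other edges in `Z` -/
def Hm (x y : Fin N) (Z : Set (Sym2 (Fin N))) : Prop :=
  ∀ u w : Fin N, u ≠ x → u ≠ y → w ≠ x → w ≠ y → u ≠ w →
    (s(y, u) ∈ Z → s(x, w) ∈ Z → s(y, w) ∈ Z → s(x, u) ∈ Z → False) ∧
    (s(y, u) ∈ Z → s(x, w) ∈ Z → s(y, w) ∈ Z → s(u, w) ∈ Z → False) ∧
    (s(x, u) ∈ Z → s(x, w) ∈ Z → s(y, w) ∈ Z → s(u, w) ∈ Z → False)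

theorem sne {a b c d : Fin N} (h1 : a ≠ c ∨ b ≠ d) (h2 : a ≠ d ∨ b ≠ c) : s(a, b) ≠ s(c, d) := by
  intro h
  rw [Sym2.eq_iff] at h
  rcases h with ⟨rfl, rfl⟩ | ⟨rfl, rfl⟩
  · rcases h1 with h | h <;> exact h rfl
  · rcases h2 with h | h <;> exact h rfl

theorem hm_K4 {x y : Fin N} (hxy : x ≠ y) {Z : Set (Sym2 (Fin N))} (hm : Hm x y Z)
    {B : Finset (Sym2 (Fin N))} (hB : ∀ b ∈ B, b ∈ Z) {h : Sym2 (Fin N)}
    (hk : K4 (insert h (insert s(x, y) B))) : K4 (insert h B) := by
  obtain ⟨S, hS, hall⟩ := hk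
  by_cases hxS : x ∈ S ∧ y ∈ S
  · -- the two other vertices
    obtain ⟨hx, hy⟩ := hxS
    have hy' : y ∈ S.erase x := Finset.mem_erase.2 ⟨fun h => hxy h.symm, hy⟩
    have hc : ((S.erase x).erase y).card = 2 := by
      rw [Finset.card_erase_of_mem hy', Finset.card_erase_of_mem hx, hS]
    obtain ⟨u, w, huw, huwS⟩ := Finset.card_eq_two.1 hc
    have hu : u ∈ (S.erase x).erase y := by rw [huwS]; simp
    have hw : w ∈ (S.erase x).erase y := by rw [huwS]; simp
    simp only [Finset.mem_erase] at hu hw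
    obtain ⟨huy, hux, huS⟩ := hu
    obtain ⟨hwy, hwx, hwS⟩ := hw
    obtain ⟨h1, h2, h3⟩ := hm u w hux huy hwx hwy huw
    obtain ⟨h1', h2', h3'⟩ := hm w u hwx hwy hux huy huw.symm
    have key : ∀ a ∈ S, ∀ b ∈ S, a ≠ b → s(a, b) ≠ s(x, y) → s(a, b) = h ∨ s(a, b) ∈ B := by
      intro a ha b hb hab hne
      have h0 := hall a ha b hb hab
      rw [Finset.mem_insert, Finset.mem_insert] at h0
      rcases h0 with h0 | h0 | h0
      · exact Or.inl h0
      · exact absurd h0 hne
      · exact Or.inr h0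
    have exu := key x hx u huS hux.symm (sne (Or.inr huy) (Or.inl hxy))
    have exw := key x hx w hwS hwx.symm (sne (Or.inr hwy) (Or.inl hxy))
    have eyu := key y hy u huS huy.symm (sne (Or.inl hxy.symm) (Or.inr hux))
    have eyw := key y hy w hwS hwy.symm (sne (Or.inl hxy.symm) (Or.inr hwx))
    have euw := key u huS w hwS huw (sne (Or.inl hux) (Or.inl huy))
    exfalso
    have n1 : s(x, u) ≠ s(x, w) := sne (Or.inr huw) (Or.inl hwx.symm)
    have n2 : s(x, u) ≠ s(y, u) := sne (Or.inl hxy) (Or.inl hux.symm)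
    have n3 : s(x, u) ≠ s(y, w) := sne (Or.inl hxy) (Or.inl hwx.symm)
    have n4 : s(x, u) ≠ s(u, w) := sne (Or.inl hux.symm) (Or.inl hwx.symm)
    have n5 : s(x, w) ≠ s(y, u) := sne (Or.inl hxy) (Or.inl hux.symm)
    have n6 : s(x, w) ≠ s(y, w) := sne (Or.inl hxy) (Or.inl hwx.symm)
    have n7 : s(x, w) ≠ s(u, w) := sne (Or.inl hux.symm) (Or.inl hwx.symm)
    have n8 : s(y, u) ≠ s(y, w) := sne (Or.inr huw) (Or.inl hwy.symm)
    have n9 : s(y, u) ≠ s(u, w) := sne (Or.inl huy.symm) (Or.inl hwy.symm)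
    have n10 : s(y, w) ≠ s(u, w) := sne (Or.inl huy.symm) (Or.inl hwy.symm)
    have swu : s(w, u) = s(u, w) := Sym2.eq_swap
    rw [swu] at h2' h3'
    rcases exu with rfl | exu
    · have a1 := hB _ (exw.resolve_left n1.symm)
      have a2 := hB _ (eyu.resolve_left n2.symm)
      have a3 := hB _ (eyw.resolve_left n3.symm)
      have a4 := hB _ (euw.resolve_left n4.symm)
      exact h2 a2 a1 a3 a4
    · have a0 := hB _ exu
      rcases exw with rfl | exw
      · have a2 := hB _ (eyu.resolve_left n5.symm)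
        have a3 := hB _ (eyw.resolve_left n6.symm)
        have a4 := hB _ (euw.resolve_left n7.symm)
        exact h2' a3 a0 a2 a4
      · have a1 := hB _ exw
        rcases eyu with rfl | eyu
        · have a3 := hB _ (eyw.resolve_left n8.symm)
          have a4 := hB _ (euw.resolve_left n9.symm)
          exact h3 a0 a1 a3 a4
        · have a2 := hB _ eyu
          rcases eyw with rfl | eyw
          · have a4 := hB _ (euw.resolve_left n10.symm)
            exact h3' a1 a0 a2 a4
          · have a3 := hB _ eyw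
            exact h1 a2 a1 a3 a0
  · refine ⟨S, hS, ?_⟩
    intro a ha b hb hab
    have := hall a ha b hb hab
    simp only [Finset.mem_insert] at this ⊢
    rcases this with h1 | h1 | h1
    · exact Or.inl h1
    · exfalso
      apply hxS
      rw [Sym2.eq_iff] at h1
      rcases h1 with ⟨rfl, rfl⟩ | ⟨rfl, rfl⟩
      · exact ⟨ha, hb⟩
      · exact ⟨hb, ha⟩
    · exact Or.inr h1

/-- a forcing sequence survives a harmless unused move of the second player -/
theorem SeqOK.harmless {A B : Finset (Sym2 (Fin N))} {U Z : Set (Sym2 (Fin N))}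
    (hs : SeqOK A B U Z) {x y : Fin N} (hxy : x ≠ y) (hU : s(x, y) ∉ U) (hm : Hm x y Z) :
    W A (insert s(x, y) B) := by
  induction hs with
  | win w hw hk hwU =>
    apply W_now (e := w) _ hk
    refine ⟨hw.1, hw.2.1, ?_⟩
    rw [Finset.mem_insert, not_or]
    exact ⟨fun h => hU (h ▸ hwU), hw.2.2⟩
  | @thr A B U Z e f he hf hk hnt heU hfU hZ hs ih =>
    have hg : s(x, y) ≠ e := fun h => hU (h ▸ heU)
    have hg' : s(x, y) ≠ f := fun h => hU (h ▸ hfU)
    apply W_thr (e := e) (f := f) _ _ hk _ _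
    · refine ⟨he.1, he.2.1, ?_⟩
      rw [Finset.mem_insert, not_or]
      exact ⟨fun h => hg h.symm, he.2.2⟩
    · refine ⟨hf.1, hf.2.1, ?_⟩
      rw [Finset.mem_insert, not_or]
      exact ⟨fun h => hg' h.symm, hf.2.2⟩
    · intro h hh hk4
      apply hnt h _ (hm_K4 hxy hm hZ hk4)
      refine ⟨hh.1, hh.2.1, ?_⟩
      intro h'
      exact hh.2.2 (Finset.mem_insert_of_mem h')
    · rw [Finset.insert_comm]
      exact ih hU hm

end Pool.Agent.K4G
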