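import Pool.Agent.Lib_helper60.K4.Rep

/-!
Soundness of the certificate checker.
-/

namespace Pool.Agent.K4G

/-- the header of entry `j` -/
noncomputable def hdr (T : Tab) : ℕ → ℕ × ℕ × ℕ :=
  Tab.rec (motive := fun _ => ℕ → ℕ × ℕ × ℕ)
    (fun v la lb _ => (v, la, lb))
    (fun _ _ ihl ihr j => cond (Nat.beq (Nat.land j 1) 0) (ihl (Nat.shiftRight j 1))
      (ihr (Nat.shiftRight j 1))) T

theorem tget_eq (T : Tab) : ∀ (j : ℕ) (k : ℕ → ℕ → ℕ → Bool),
    tget T j k = k (hdr T j).1 (hdr T j).2.1 (hdr T j).2.2 := by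
  induction T with
  | leaf v la lb => intro j k; rfl
  | node l r ihl ihr =>
    intro j k
    have h1 : tget (Tab.node l r) j k = cond (Nat.beq (Nat.land j 1) 0)
      (tget l (Nat.shiftRight j 1) k) (tget r (Nat.shiftRight j 1) k) := rfl
    have h2 : hdr (Tab.node l r) j = cond (Nat.beq (Nat.land j 1) 0)
      (hdr l (Nat.shiftRight j 1)) (hdr r (Nat.shiftRight j 1)) := rfl
    rw [h1, h2, ihl, ihr]
    cases Nat.beq (Nat.land j 1) 0 <;> rfl

/-- entry `j` is won by the first player -/
def GoodE (T : Tab) (j : ℕ) : Prop :=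
  ∀ N, 11 ≤ N → ∀ (φ : ℕ → Fin N) (A B : Finset (Sym2 (Fin N))), Inj φ (hdr T j).1 →
    RepL φ (unpk 64 (hdr T j).2.1) A → RepL φ (unpk 64 (hdr T j).2.2) B → ¬ K4 B → GoodP2 A B

theorem byte_lt (s : ℕ) : Nat.land s 255 < 256 := by
  have h : s &&& 255 ≤ 255 := Nat.and_le_right
  exact Nat.lt_succ_of_le h

theorem inj_mono {N : ℕ} {φ : ℕ → Fin N} {v v' : ℕ} (h : v ≤ v') (hi' : Inj φ v') : Inj φ v :=
  fun x hx y hy => hi' x (by omega) y (by omega)

/-- the link step -/
theorem lnk_sound {T : Tab} {j0 n j p v MA MB : ℕ} (hv : v ≤ 16)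
    (IH : ∀ j, j0 < j → j < n → GoodE T j) (h : lnk T j0 n j p v MA MB = true)
    {N : ℕ} (hN : 11 ≤ N) {φ : ℕ → Fin N} {A B : Finset (Sym2 (Fin N))} (hi' : Inj φ v)
    (hA : Rep φ v MA A) (hB : Rep φ v MB B) (hk : ¬ K4 B) : GoodP2 A B := by
  obtain ⟨h1, h⟩ := cond_ff (show cond (Nat.ble (Nat.succ j0) j) _ false = true from h)
  obtain ⟨h2, h⟩ := cond_ff h
  rw [tget_eq] at h
  obtain ⟨h3, h⟩ := cond_ff h
  obtain ⟨h4, h⟩ := cond_ff h
  obtain ⟨h5, h6⟩ := cond_ff h
  have h3 := beq_true h3
  have h5 := beq_true h5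
  have h6 := beq_true h6
  obtain ⟨hp1, hp2⟩ := perm_sound h4
  have hgood := IH j (ble_true h1) (ble_true h2)
  rw [← h5] at hA
  rw [← h6] at hB
  refine hgood N hN (fun i => φ (nib p i)) A B ?_ (rep_repL hv hA) (rep_repL hv hB) hk
  rw [h3]
  intro x hx y hy hxy
  exact hp2 x hx y hy (hi' _ (hp1 x hx) _ (hp1 y hy) hxy)

/-- the position with `v` labels, matrices `MA` and `MB` is won by the first player to move -/
def WonP (v MA MB : ℕ) (lb : List ℕ) : Prop :=
  ∀ N, 11 ≤ N → ∀ (φ : ℕ → Fin N) (A B : Finset (Sym2 (Fin N))), Inj φ v →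
    Rep φ v MA A → Rep φ v MB B → (∀ e ∈ B, ∃ c ∈ lb, vl v c = true ∧ e = ed φ c) → ¬ K4 B → W A B

theorem cover_insert {N : ℕ} {φ : ℕ → Fin N} {v c : ℕ} {lb : List ℕ}
    {B : Finset (Sym2 (Fin N))} (hc : vl v c = true)
    (hl : ∀ e ∈ B, ∃ c ∈ lb, vl v c = true ∧ e = ed φ c) :
    ∀ e ∈ insert (ed φ c) B, ∃ c' ∈ c :: lb, vl v c' = true ∧ e = ed φ c' := by
  intro e he
  rw [Finset.mem_insert] at he
  rcases he with rfl | he
  · exact ⟨c, List.mem_cons_self, hc, rfl⟩
  · obtain ⟨c', hc', h1, h2⟩ := hl e he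
    exact ⟨c', List.mem_cons_of_mem _ hc', h1, h2⟩

theorem plan_sound {T : Tab} {j0 n : ℕ} (IH : ∀ j, j0 < j → j < n → GoodE T j) :
    ∀ (fuel s v MA MB : ℕ) (lb : List ℕ) (k : ℕ → Bool), v ≤ 16 →
      plan T j0 n fuel s v MA MB lb k = true → WonP v MA MB lb ∧ ∃ s', k s' = true := by
  intro fuel
  induction fuel with
  | zero =>
    intro s v MA MB lb k _ h
    exact absurd (show false = true from h) (by simp)
  | succ fuel ih =>
    intro s v MA MB lb k hv h
    set e := Nat.land (Nat.shiftRight s 8) 255 with he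
    set s1 := Nat.shiftRight s 16 with hs1
    set f := Nat.land s1 255 with hf
    set d := Nat.land (Nat.shiftRight s1 8) 255 with hd
    have h' : cond (Nat.beq (Nat.land s 255) 1)
          (cond (vl v e) (cond (vl v f) (cond (bt (Nat.lor MA MB) e) false
              (cond (bt (Nat.lor (ad MA e) MB) f) false
                (cond (k4c (ad (ad MA e) f) f d)
                  (cond (nt (Nat.lor (ad MA e) MB) MB lb)
                    (plan T j0 n fuel (Nat.shiftRight s1 16) v (ad MA e) (ad MB f) (f :: lb) k)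
                      false) false))) false) false)
          (cond (Nat.beq (Nat.land s 255) 2)
            (cond (vl v e) (cond (bt (Nat.lor MA MB) e) false
                (cond (k4c (ad MA e) e f) (k (Nat.shiftRight s1 8)) false)) false)
            (cond (Nat.beq (Nat.land s 255) 3)
                (cond (cond (Nat.beq (cond (Nat.beq (lo e) v) (Nat.succ v) v) v) true (Nat.ble v 10))
                  (cond (vl (cond (Nat.beq (lo e) v) (Nat.succ v) v) e)
                    (cond (bt (Nat.lor MA MB) e) false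
                    (cond (lnk T j0 n (Nat.land s1 65535)
                      (Nat.shiftRight (Nat.land s1 0xFFFFFFFFFFFFFFFFFFFF) 16)
                        (cond (Nat.beq (lo e) v) (Nat.succ v) v) (ad MA e) MB)
                      (k (Nat.shiftRight s1 80)) false)) false) false)
              false)) = true := h
    clear h
    cases ht1 : Nat.beq (Nat.land s 255) 1 with
    | true =>
      rw [ht1] at h'
      obtain ⟨g1, h'⟩ := cond_ff (show cond (vl v e) _ false = true from h')
      obtain ⟨g2, h'⟩ := cond_ff h'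
      obtain ⟨g3, h'⟩ := cond_nf h'
      obtain ⟨g4, h'⟩ := cond_nf h'
      obtain ⟨g5, h'⟩ := cond_ff h'
      obtain ⟨g6, h'⟩ := cond_ff h'
      obtain ⟨hW, hk'⟩ := ih _ _ _ _ _ _ hv h'
      refine ⟨?_, hk'⟩
      intro N hN φ A B hi' hA hB hl hk4
      have hA1 := rep_insert hi' hA g1
      have hA2 := rep_insert hi' hA1 g2
      have hB1 := rep_insert hi' hB g2
      have hfe : Free A B (ed φ e) := rep_free hi' hA hB g1 g3
      have hff : Free (insert (ed φ e) A) B (ed φ f) := rep_free hi' hA1 hB g2 g4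
      have hnt : NT (insert (ed φ e) A) B := nt_sound hv hA1 hB hl hk4 g6
      have hK : K4 (insert (ed φ f) (insert (ed φ e) A)) :=
        k4c_sound hi' hA2 g2 (Finset.mem_insert_self _ _) (byte_lt _) g5
      exact W_thr hfe hff hK hnt
        (hW N hN φ _ _ hi' hA1 hB1 (cover_insert g2 hl) (hnt _ hff))
    | false =>
      rw [ht1] at h'
      cases ht2 : Nat.beq (Nat.land s 255) 2 with
      | true =>
        rw [ht2] at h'
        obtain ⟨g1, h'⟩ := cond_ff (show cond (vl v e) _ false = true from h')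
        obtain ⟨g2, h'⟩ := cond_nf h'
        obtain ⟨g3, h'⟩ := cond_ff h'
        refine ⟨?_, _, h'⟩
        intro N hN φ A B hi' hA hB hl hk4
        have hA1 := rep_insert hi' hA g1
        have hfe : Free A B (ed φ e) := rep_free hi' hA hB g1 g2
        exact W_now hfe (k4c_sound hi' hA1 g1 (Finset.mem_insert_self _ _) (byte_lt _) g3)
      | false =>
        rw [ht2] at h'
        obtain ⟨g0, h'⟩ := cond_ff (show cond (Nat.beq (Nat.land s 255) 3) _ false = true from h')
        obtain ⟨g1, h'⟩ := cond_ff h'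
        obtain ⟨g2, h'⟩ := cond_ff h'
        obtain ⟨g3, h'⟩ := cond_nf h'
        obtain ⟨g4, h'⟩ := cond_ff h'
        refine ⟨?_, _, h'⟩
        intro N hN φ A B hi' hA hB hl hk4
        -- the (possibly) extended labelling
        obtain ⟨φ', hi2, hA', hB'⟩ : ∃ φ' : ℕ → Fin N,
            Inj φ' (cond (Nat.beq (lo e) v) (Nat.succ v) v) ∧
            Rep φ' (cond (Nat.beq (lo e) v) (Nat.succ v) v) MA A ∧
            Rep φ' (cond (Nat.beq (lo e) v) (Nat.succ v) v) MB B := by
          cases hb : Nat.beq (lo e) v with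
          | false => exact ⟨φ, hi', hA, hB⟩
          | true =>
            have hv10 : v ≤ 10 := by
              rw [hb] at g1
              rcases cond_tt g1 with g1 | g1
              · have := beq_true g1
                exact absurd this (by simp)
              · exact ble_true g1
            obtain ⟨b, hb'⟩ := exists_new (φ := φ) (show v < N by omega)
            exact ⟨Function.update φ v b, inj_update hi' hb', rep_update hb' hA,
              rep_update hb' hB⟩
        have hv' : cond (Nat.beq (lo e) v) (Nat.succ v) v ≤ 16 := by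
          have hlo := lo_lt e
          cases hb : Nat.beq (lo e) v with
          | false => exact hv
          | true =>
            have := beq_true hb
            show v + 1 ≤ 16
            omega
        have hA1 := rep_insert hi2 hA' g2
        have hfe : Free A B (ed φ' e) := rep_free hi2 hA' hB' g2 g3
        exact W_move hfe (lnk_sound hv' IH g4 hN hi2 hA1 hB' hk4)

/-! ### covers -/

/-- inclusion of matrices -/
def Sub (X Y : ℕ) : Prop := ∀ i, X.testBit i = true → Y.testBit i = true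

/-- the edges of the matrix `M` -/
def edS {N : ℕ} (φ : ℕ → Fin N) (v M : ℕ) : Set (Sym2 (Fin N)) :=
  {e | ∃ x < v, ∃ y < v, x ≠ y ∧ M.testBit (16 * x + y) = true ∧ e = s(φ x, φ y)}

theorem sub_ad (M c : ℕ) : Sub M (ad M c) := by
  intro i hi'
  have h : ad M c = Nat.lor M (Nat.lor (Nat.shiftLeft 1 (cd (hi c) (lo c)))
    (Nat.shiftLeft 1 (cd (lo c) (hi c)))) := rfl
  rw [h, tb_lor, hi']
  rfl

theorem tb_ad_self (M c : ℕ) : (ad M c).testBit c = true := by
  have h : ad M c = Nat.lor M (Nat.lor (Nat.shiftLeft 1 (cd (hi c) (lo c)))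
    (Nat.shiftLeft 1 (cd (lo c) (hi c)))) := rfl
  rw [h, tb_lor, tb_lor, tb_shl, cd_hi_lo]
  simp

theorem mem_edS {N : ℕ} {φ : ℕ → Fin N} {v U c : ℕ} (hc : vl v c = true)
    (h : U.testBit c = true) : ed φ c ∈ edS φ v U := by
  obtain ⟨hc1, hc2⟩ := (vl_iff v c).1 hc
  refine ⟨hi c, by omega, lo c, hc2, by omega, ?_, rfl⟩
  rw [← cd_eq, cd_hi_lo]
  exact h

theorem rep_edS {N : ℕ} {φ : ℕ → Fin N} {v M Z : ℕ} {B : Finset (Sym2 (Fin N))} (hv : v ≤ 16)
    (hB : Rep φ v M B) (h : Sub M Z) : ∀ b ∈ B, b ∈ edS φ v Z := by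
  intro b hb
  obtain ⟨x, hx, y, hy, hxy, rfl⟩ := hB.2 b hb
  exact ⟨x, hx, y, hy, hxy, h _ ((hB.1 x (by omega) y (by omega)).2 ⟨hx, hy, hxy, hb⟩), rfl⟩

/-- symmetric matrices -/
def SymM (M : ℕ) : Prop :=
  ∀ x y, x < 16 → y < 16 → M.testBit (16 * x + y) = true → M.testBit (16 * y + x) = true

theorem symM_adx {M x y : ℕ} (hx : x < 16) (hy : y < 16) (h : SymM M) : SymM (adx M x y) := by
  intro p q hp hq hb
  rw [tb_adx _ _ _ _ _ hx hy hp hq] at hb
  rw [tb_adx _ _ _ _ _ hx hy hq hp]
  rcases hb with hb | ⟨rfl, rfl⟩ | ⟨rfl, rfl⟩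
  · exact Or.inl (h p q hp hq hb)
  · exact Or.inr (Or.inr ⟨rfl, rfl⟩)
  · exact Or.inr (Or.inl ⟨rfl, rfl⟩)

theorem symM_ad {M v c : ℕ} (hc : vl v c = true) (h : SymM M) : SymM (ad M c) := by
  obtain ⟨h1, h2⟩ := (vl_iff v c).1 hc
  have := lo_lt c
  exact symM_adx (by omega) this h

theorem symM_matp (π : ℕ) (l : List ℕ) : SymM (matp π l) := by
  intro x y hx hy h
  rw [tb_matp _ _ _ _ hx hy] at h
  rw [tb_matp _ _ _ _ hy hx]
  obtain ⟨c, hc, h | h⟩ := h
  · exact ⟨c, hc, Or.inr ⟨h.2, h.1⟩⟩
  · exact ⟨c, hc, Or.inl ⟨h.2, h.1⟩⟩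

theorem cov_sound : ∀ (fuel s v MA MB : ℕ) (lb : List ℕ) (U Z : ℕ) (k : ℕ → ℕ → ℕ → Bool),
    v ≤ 16 → Sub Z MB → SymM MB → SymM U → SymM Z → cov fuel s v MA MB lb U Z k = true →
      ∃ s' U' Z', k s' U' Z' = true ∧ Sub U U' ∧ Sub Z Z' ∧ SymM U' ∧ SymM Z' ∧
        ∀ N, 11 ≤ N → ∀ (φ : ℕ → Fin N) (A B : Finset (Sym2 (Fin N))), Inj φ v →
          Rep φ v MA A → Rep φ v MB B → (∀ e ∈ B, ∃ c ∈ lb, vl v c = true ∧ e = ed φ c) →
          ¬ K4 B → SeqOK A B (edS φ v U') (edS φ v Z') := by
  intro fuel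
  induction fuel with
  | zero =>
    intro s v MA MB lb U Z k _ _ _ _ _ h
    exact absurd (show false = true from h) (by simp)
  | succ fuel ih =>
    intro s v MA MB lb U Z k hv hZ hSB hSU hSZ h
    set e := Nat.land (Nat.shiftRight s 8) 255 with he
    set s1 := Nat.shiftRight s 16 with hs1
    set f := Nat.land s1 255 with hf
    set d := Nat.land (Nat.shiftRight s1 8) 255 with hd
    have h' : cond (Nat.beq (Nat.land s 255) 1)
          (cond (vl v e) (cond (vl v f) (cond (bt (Nat.lor MA MB) e) false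
              (cond (bt (Nat.lor (ad MA e) MB) f) false
                (cond (k4c (ad (ad MA e) f) f d)
                  (cond (nt (Nat.lor (ad MA e) MB) MB lb)
                    (cov fuel (Nat.shiftRight s1 16) v (ad MA e) (ad MB f) (f :: lb)
                      (ad (ad U e) f) MB k)
                      false) false))) false) false)
          (cond (Nat.beq (Nat.land s 255) 2)
            (cond (vl v e) (cond (bt (Nat.lor MA MB) e) false
                (cond (k4c (ad MA e) e f) (k (Nat.shiftRight s1 8) (ad U e) Z) false)) false)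
            false) = true := h
    clear h
    cases ht1 : Nat.beq (Nat.land s 255) 1 with
    | true =>
      rw [ht1] at h'
      obtain ⟨g1, h'⟩ := cond_ff (show cond (vl v e) _ false = true from h')
      obtain ⟨g2, h'⟩ := cond_ff h'
      obtain ⟨g3, h'⟩ := cond_nf h'
      obtain ⟨g4, h'⟩ := cond_nf h'
      obtain ⟨g5, h'⟩ := cond_ff h'
      obtain ⟨g6, h'⟩ := cond_ff h'
      obtain ⟨s', U', Z', hk', hU', hZ', hSU', hSZ', hall⟩ := ih _ _ _ _ _ _ _ _ hv (sub_ad MB f)
        (symM_ad g2 hSB) (symM_ad g2 (symM_ad g1 hSU)) hSB h'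
      refine ⟨s', U', Z', hk', ?_, ?_, hSU', hSZ', ?_⟩
      · intro i hi'
        exact hU' i (sub_ad _ _ i (sub_ad _ _ i hi'))
      · intro i hi'
        exact hZ' i (hZ i hi')
      · intro N hN φ A B hi' hA hB hl hk4
        have hA1 := rep_insert hi' hA g1
        have hA2 := rep_insert hi' hA1 g2
        have hB1 := rep_insert hi' hB g2
        have hfe : Free A B (ed φ e) := rep_free hi' hA hB g1 g3
        have hff : Free (insert (ed φ e) A) B (ed φ f) := rep_free hi' hA1 hB g2 g4
        have hnt : NT (insert (ed φ e) A) B := nt_sound hv hA1 hB hl hk4 g6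
        have hK : K4 (insert (ed φ f) (insert (ed φ e) A)) :=
          k4c_sound hi' hA2 g2 (Finset.mem_insert_self _ _) (byte_lt _) g5
        refine SeqOK.thr (ed φ e) (ed φ f) hfe hff hK hnt ?_ ?_ (rep_edS hv hB hZ')
          (hall N hN φ _ _ hi' hA1 hB1 (cover_insert g2 hl) (hnt _ hff))
        · exact mem_edS g1 (hU' _ (sub_ad _ _ _ (tb_ad_self _ _)))
        · exact mem_edS g2 (hU' _ (tb_ad_self _ _))
    | false =>
      rw [ht1] at h'
      obtain ⟨g0, h'⟩ := cond_ff (show cond (Nat.beq (Nat.land s 255) 2) _ false = true from h')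
      obtain ⟨g1, h'⟩ := cond_ff h'
      obtain ⟨g2, h'⟩ := cond_nf h'
      obtain ⟨g3, h'⟩ := cond_ff h'
      refine ⟨_, _, _, h', sub_ad _ _, fun i hi' => hi', symM_ad g1 hSU, hSZ, ?_⟩
      intro N hN φ A B hi' hA hB hl hk4
      have hA1 := rep_insert hi' hA g1
      have hfe : Free A B (ed φ e) := rep_free hi' hA hB g1 g2
      exact SeqOK.win (ed φ e) hfe
        (k4c_sound hi' hA1 g1 (Finset.mem_insert_self _ _) (byte_lt _) g3)
        (mem_edS g1 (tb_ad_self _ _))

/-! ### children -/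

/-- the number of labels after the reply `f` -/
def nv (v f : ℕ) : ℕ :=
  cond (Nat.ble (Nat.succ (lo f)) v) v (cond (Nat.beq (lo f) v) (Nat.succ v)
    (cond (Nat.beq (hi f) v) (Nat.succ (Nat.succ v)) v))

theorem nv_le (v f : ℕ) : nv v f ≤ v + 2 := by
  unfold nv
  cases Nat.ble (Nat.succ (lo f)) v <;> cases Nat.beq (lo f) v <;> cases Nat.beq (hi f) v <;>
    simp only [cond_true, cond_false, Nat.succ_eq_add_one] <;> omega

/-- all replies in `C` are treated -/
def Treated (v MA MB : ℕ) (lb : List ℕ) (C : ℕ) : Prop :=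
  ∀ x y, x < y → y < 16 → C.testBit (16 * x + y) = true →
    WonP (nv v (cd x y)) MA (ad MB (cd x y)) (cd x y :: lb)

theorem chi_sound {T : Tab} {j0 n v MA MB : ℕ} {lb : List ℕ} (hv : v ≤ 14)
    (IH : ∀ j, j0 < j → j < n → GoodE T j) :
    ∀ (fuel s C : ℕ) (k : ℕ → Bool), Treated v MA MB lb C →
      chi T j0 n v MA MB lb fuel s C k = true → ∃ C', k C' = true ∧ Treated v MA MB lb C' := by
  intro fuel
  induction fuel with
  | zero =>
    intro s C k _ h
    exact absurd (show false = true from h) (by simp)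
  | succ fuel ih =>
    intro s C k hC h
    set f := Nat.land s 255 with hf
    have h' : cond (Nat.beq f 0) (k C)
              (cond (vl (nv v f) f)
              (plan T j0 n 64 (Nat.shiftRight s 8) (nv v f) MA (ad MB f) (f :: lb)
                (fun s2 => chi T j0 n v MA MB lb fuel s2 (ad C f) k))
              false) = true := h
    clear h
    cases hf0 : Nat.beq f 0 with
    | true =>
      rw [hf0] at h'
      exact ⟨C, h', hC⟩
    | false =>
      rw [hf0] at h'
      obtain ⟨g1, h'⟩ := cond_ff (show cond (vl (nv v f) f) _ false = true from h')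
      have hnv := nv_le v f
      obtain ⟨hW, s', hs'⟩ := plan_sound IH _ _ _ _ _ _ _ (by omega) h'
      refine ih s' _ k ?_ hs'
      intro x y hxy hy hb
      have h1 : ad C f = adx C (hi f) (lo f) := rfl
      obtain ⟨g2, g3⟩ := (vl_iff _ _).1 g1
      have hlo := lo_lt f
      rw [h1, tb_adx _ _ _ _ _ (by omega) hlo (by omega) hy] at hb
      rcases hb with hb | ⟨rfl, rfl⟩ | ⟨rfl, rfl⟩
      · exact hC x y hxy hy hb
      · rw [cd_hi_lo]
        exact hW
      · omega

theorem allB_sound (f : ℕ → Bool) : ∀ n, allB f n = true → ∀ i < n, f i = true := by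
  intro n
  induction n with
  | zero => intro _ i hi'; omega
  | succ n ih =>
    intro h i hi'
    obtain ⟨h1, h2⟩ := cond_ff (show cond (f n) (allB f n) false = true from h)
    by_cases hin : i = n
    · rw [hin]; exact h1
    · exact ih h2 i (by omega)

theorem allB_false (f : ℕ → Bool) : ∀ n, allB f n = false → ∃ i < n, f i = false := by
  intro n
  induction n with
  | zero => intro h; exact absurd (show true = false from h) (by simp)
  | succ n ih =>
    intro h
    have h' : cond (f n) (allB f n) false = false := h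
    cases hfn : f n with
    | false => exact ⟨n, by omega, hfn⟩
    | true =>
      rw [hfn] at h'
      obtain ⟨i, hi', hfi⟩ := ih h'
      exact ⟨i, by omega, hfi⟩

theorem bt_lor (a b c : ℕ) : bt (Nat.lor a b) c = (bt a c || bt b c) := by
  rw [bt_eq, bt_eq, bt_eq, tb_lor]

/-- there is a free edge -/
theorem some_sound {N : ℕ} (hN : 11 ≤ N) {v MA MB : ℕ} (hv1 : 1 ≤ v) (hv : v ≤ 16)
    {φ : ℕ → Fin N} {A B : Finset (Sym2 (Fin N))} (hi' : Inj φ v) (hA : Rep φ v MA A)
    (hB : Rep φ v MB B) (h : some0 v (Nat.lor MA MB) = true) : ∃ f, Free A B f := by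
  rcases cond_tt (show cond (Nat.ble v 10) true _ = true from h) with h | h
  · have hv10 := ble_true h
    obtain ⟨b, hb⟩ := exists_new (φ := φ) (show v < N by omega)
    have hnb : ∀ M S, Rep φ v M S → s(φ 0, b) ∉ S := by
      intro M S hS hmem
      obtain ⟨x, hx, y, hy, _, hxy⟩ := hS.2 _ hmem
      rw [Sym2.eq_iff] at hxy
      rcases hxy with ⟨_, h2⟩ | ⟨_, h2⟩
      · exact hb y hy h2.symm
      · exact hb x hx h2.symm
    refine ⟨s(φ 0, b), ?_, hnb _ _ hA, hnb _ _ hB⟩
    intro hd
    have h2 : φ 0 = b := by simpa using hd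
    exact hb 0 (by omega) h2
  · obtain ⟨h1, _⟩ := cond_nf h
    obtain ⟨y, hy, h2⟩ := allB_false _ _ h1
    obtain ⟨x, hx, h3⟩ := allB_false _ _ h2
    have hc : vl v (cd x y) = true := by
      rw [vl_iff, hi_cd (by omega), lo_cd (by omega)]
      exact ⟨hx, hy⟩
    exact ⟨_, rep_free hi' hA hB hc h3⟩

/-- a treated reply between old vertices -/
theorem treated_old {N : ℕ} (hN : 11 ≤ N) {v MA MB C x y : ℕ} {lb : List ℕ} (hv : v ≤ 16)
    {φ : ℕ → Fin N} {A B : Finset (Sym2 (Fin N))} (hi' : Inj φ v) (hA : Rep φ v MA A)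
    (hB : Rep φ v MB B) (hl : ∀ e ∈ B, ∃ c ∈ lb, vl v c = true ∧ e = ed φ c)
    (hT : Treated v MA MB lb C) (hxy : x < y) (hy : y < v)
    (hC : C.testBit (16 * x + y) = true) (hk : ¬ K4 (insert s(φ x, φ y) B)) :
    W A (insert s(φ x, φ y) B) := by
  have h := hT x y hxy (by omega) hC
  have hc : vl v (cd x y) = true := by
    rw [vl_iff, hi_cd (by omega), lo_cd (by omega)]
    exact ⟨hxy, hy⟩
  have hnv : nv v (cd x y) = v := by
    unfold nv
    rw [lo_cd (by omega), Nat.ble_eq_true_of_le (show Nat.succ y ≤ v from hy)]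
    rfl
  have hed : ed φ (cd x y) = s(φ x, φ y) := by
    rw [ed, hi_cd (by omega), lo_cd (by omega)]
  rw [hnv] at h
  rw [← hed] at hk ⊢
  exact h N hN φ A _ hi' hA (rep_insert hi' hB hc) (cover_insert hc hl) hk

theorem edS_bit {N : ℕ} {φ : ℕ → Fin N} {v M x y : ℕ} (hv : v ≤ 16) (hS : SymM M)
    (hi' : Inj φ v) (hx : x < v) (hy : y < v) (h : s(φ x, φ y) ∈ edS φ v M) :
    M.testBit (16 * x + y) = true := by
  obtain ⟨p, hp, q, hq, _, hb, he⟩ := h
  rcases inj_eq hi' hx hy hp hq he with ⟨rfl, rfl⟩ | ⟨rfl, rfl⟩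
  · exact hb
  · exact hS _ _ (by omega) (by omega) hb

theorem edS_left {N : ℕ} {φ : ℕ → Fin N} {v M : ℕ} {a b : Fin N} (h : s(a, b) ∈ edS φ v M) :
    ∃ x < v, φ x = a := by
  obtain ⟨p, hp, q, hq, _, _, he⟩ := h
  rw [Sym2.eq_iff] at he
  rcases he with ⟨h1, _⟩ | ⟨h1, _⟩
  · exact ⟨p, hp, h1.symm⟩
  · exact ⟨q, hq, h1.symm⟩

theorem hm_sound {N : ℕ} {φ : ℕ → Fin N} {v Z x y : ℕ} (hv : v ≤ 16) (hS : SymM Z)
    (hi' : Inj φ v) (hx : x < v) (hy : y < v) (h : hm Z x y = true) :
    Hm (φ x) (φ y) (edS φ v Z) := by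
  have h' : cond (Nat.beq (Nat.land (row Z x) (row Z y)) 0) true
    (cond (Nat.beq (Nat.land (row Z x) (row Z y))
      (Nat.shiftLeft 1 (Nat.log2 (Nat.land (row Z x) (row Z y)))))
      (Nat.beq (Nat.land (row Z (Nat.log2 (Nat.land (row Z x) (row Z y))))
        (Nat.lor (row Z x) (row Z y))) 0) false) = true := h
  clear h
  intro u w hux huy hwx hwy huw
  -- all three configurations contain `x w` and `y w`, or `x u` and `y u`
  have bit : ∀ p < v, ∀ q < v, s(φ p, φ q) ∈ edS φ v Z → (row Z p).testBit q = true := by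
    intro p hp q hq hpq
    rw [tb_row]
    exact ⟨by omega, edS_bit hv hS hi' hp hq hpq⟩
  have one : ∀ q < v, s(φ x, φ q) ∈ edS φ v Z → s(φ y, φ q) ∈ edS φ v Z →
      q = Nat.log2 (Nat.land (row Z x) (row Z y)) ∧
      Nat.land (row Z q) (Nat.lor (row Z x) (row Z y)) = 0 := by
    intro q hq h1 h2
    have hb : (Nat.land (row Z x) (row Z y)).testBit q = true := by
      rw [tb_land, bit x hx q hq h1, bit y hy q hq h2]; rfl
    rcases cond_tt h' with h0 | h0
    · rw [beq_true h0] at hb
      simp at hb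
    · obtain ⟨h3, h4⟩ := cond_ff h0
      have h3 := beq_true h3
      have hq' : q = Nat.log2 (Nat.land (row Z x) (row Z y)) := by
        rw [h3, tb_shl] at hb
        exact (of_decide_eq_true hb).symm
      exact ⟨hq', by rw [hq']; exact beq_true h4⟩
  have two : ∀ p < v, ∀ q < v, s(φ x, φ q) ∈ edS φ v Z → s(φ y, φ q) ∈ edS φ v Z →
      s(φ p, φ q) ∈ edS φ v Z → (s(φ x, φ p) ∈ edS φ v Z ∨ s(φ y, φ p) ∈ edS φ v Z) → False := by
    intro p hp q hq h1 h2 h3 h4
    obtain ⟨_, h5⟩ := one q hq h1 h2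
    have h6 : (Nat.land (row Z q) (Nat.lor (row Z x) (row Z y))).testBit p = true := by
      rw [tb_land, tb_lor, bit q hq p hp (by rw [Sym2.eq_swap]; exact h3)]
      rcases h4 with h4 | h4
      · rw [bit x hx p hp h4]; rfl
      · rw [bit y hy p hp h4]; simp
    rw [h5] at h6
    simp at h6
  refine ⟨?_, ?_, ?_⟩
  · intro h1 h2 h3 h4
    obtain ⟨p, hp, rfl⟩ := edS_left (show s(u, φ x) ∈ edS φ v Z by rw [Sym2.eq_swap]; exact h4)
    obtain ⟨q, hq, rfl⟩ := edS_left (show s(w, φ x) ∈ edS φ v Z by rw [Sym2.eq_swap]; exact h2)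
    have a1 := (one p hp h4 h1).1
    have a2 := (one q hq h2 h3).1
    exact huw (by rw [a1, a2])
  · intro h1 h2 h3 h4
    obtain ⟨p, hp, rfl⟩ := edS_left h4
    obtain ⟨q, hq, rfl⟩ := edS_left (show s(w, φ x) ∈ edS φ v Z by rw [Sym2.eq_swap]; exact h2)
    exact two p hp q hq h2 h3 h4 (Or.inr h1)
  · intro h1 h2 h3 h4
    obtain ⟨p, hp, rfl⟩ := edS_left h4
    obtain ⟨q, hq, rfl⟩ := edS_left (show s(w, φ x) ∈ edS φ v Z by rw [Sym2.eq_swap]; exact h2)
    exact two p hp q hq h2 h3 h4 (Or.inl h1)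

/-- a reply to a vertex outside of the labelled ones is harmless -/
theorem hm_new {N : ℕ} {φ : ℕ → Fin N} {v Z : ℕ} {a b : Fin N}
    (h : (∀ x < v, φ x ≠ a) ∨ (∀ x < v, φ x ≠ b)) : Hm a b (edS φ v Z) := by
  intro u w _ _ _ _ _
  rcases h with h | h
  · refine ⟨?_, ?_, ?_⟩
    · intro _ h2 _ _
      obtain ⟨p, hp, h3⟩ := edS_left h2
      exact h p hp h3
    · intro _ h2 _ _
      obtain ⟨p, hp, h3⟩ := edS_left h2
      exact h p hp h3
    · intro h2 _ _ _
      obtain ⟨p, hp, h3⟩ := edS_left h2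
      exact h p hp h3
  · refine ⟨?_, ?_, ?_⟩
    · intro h2 _ _ _
      obtain ⟨p, hp, h3⟩ := edS_left h2
      exact h p hp h3
    · intro h2 _ _ _
      obtain ⟨p, hp, h3⟩ := edS_left h2
      exact h p hp h3
    · intro _ _ h2 _
      obtain ⟨p, hp, h3⟩ := edS_left h2
      exact h p hp h3

/-- replies between old vertices which are treated, used or harmless -/
theorem fin1_sound {N : ℕ} (hN : 11 ≤ N) {v MA MB C U Z : ℕ} {lb : List ℕ} (hv : v ≤ 16)
    {φ : ℕ → Fin N} {A B : Finset (Sym2 (Fin N))} (hi' : Inj φ v) (hA : Rep φ v MA A)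
    (hB : Rep φ v MB B) (hl : ∀ e ∈ B, ∃ c ∈ lb, vl v c = true ∧ e = ed φ c)
    (hT : Treated v MA MB lb C) (hnt : NT A B) (hSU : SymM U) (hSZ : SymM Z)
    (hs : SeqOK A B (edS φ v U) (edS φ v Z))
    (h : fin1 v (Nat.lor (Nat.lor MA MB) C) U Z = true) : ∀ f, Free A B f → W A (insert f B) := by
  have old : ∀ x y, x < y → y < v → Free A B s(φ x, φ y) → W A (insert s(φ x, φ y) B) := by
    intro x y hxy hy hf
    have h1 := allB_sound _ _ (allB_sound _ _ h y hy) x hxy
    rcases cond_tt h1 with h1 | h1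
    · rw [bt_lor, bt_lor, Bool.or_eq_true, Bool.or_eq_true, bt_eq, bt_eq, bt_eq, cd_eq] at h1
      rcases h1 with (h1 | h1) | h1
      · exact absurd ((hA.1 x (by omega) y (by omega)).1 h1).2.2.2 hf.2.1
      · exact absurd ((hB.1 x (by omega) y (by omega)).1 h1).2.2.2 hf.2.2
      · exact treated_old hN hv hi' hA hB hl hT hxy hy h1 (hnt _ hf)
    · obtain ⟨h2, h3⟩ := cond_nf h1
      refine hs.harmless (fun h' => ?_) (fun h' => ?_) (hm_sound hv hSZ hi' (by omega) hy h3)
      · have := hi' _ (by omega) _ hy h'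
        omega
      · have h4 := edS_bit hv hSU hi' (show x < v by omega) hy h'
        rw [bt_eq, cd_eq, h4] at h2
        simp at h2
  intro f
  induction f using Sym2.ind with
  | _ a b =>
    intro hf
    have hab : a ≠ b := by
      intro h'
      exact hf.1 (by simpa using h')
    by_cases ha : ∃ x < v, φ x = a
    · by_cases hb : ∃ y < v, φ y = b
      · obtain ⟨x, hx, rfl⟩ := ha
        obtain ⟨y, hy, rfl⟩ := hb
        rcases lt_trichotomy x y with hxy | hxy | hxy
        · exact old x y hxy hy hf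
        · exact absurd (by rw [hxy]) hab
        · rw [Sym2.eq_swap] at hf ⊢
          exact old y x hxy hx hf
      · push Not at hb
        refine hs.harmless hab (fun h' => ?_) (hm_new (Or.inr hb))
        obtain ⟨p, hp, h3⟩ := edS_left (show s(b, a) ∈ edS φ v U by rw [Sym2.eq_swap]; exact h')
        exact hb p hp h3
    · push Not at ha
      refine hs.harmless hab (fun h' => ?_) (hm_new (Or.inl ha))
      obtain ⟨p, hp, h3⟩ := edS_left h'
      exact ha p hp h3

theorem cover_update {N : ℕ} {φ : ℕ → Fin N} {v : ℕ} {lb : List ℕ}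
    {B : Finset (Sym2 (Fin N))} (hl : ∀ e ∈ B, ∃ c ∈ lb, vl v c = true ∧ e = ed φ c) (b : Fin N) :
    ∀ e ∈ B, ∃ c ∈ lb, vl (v + 1) c = true ∧ e = ed (Function.update φ v b) c := by
  intro e he
  obtain ⟨c, hc, h1, h2⟩ := hl e he
  exact ⟨c, hc, vl_mono (by omega) h1, by rw [ed_update h1]; exact h2⟩

/-- all replies are treated -/
theorem fin0_sound {N : ℕ} (hN : 11 ≤ N) {v MA MB C : ℕ} {lb : List ℕ} (hv : v ≤ 14)
    {φ : ℕ → Fin N} {A B : Finset (Sym2 (Fin N))} (hi' : Inj φ v) (hA : Rep φ v MA A)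
    (hB : Rep φ v MB B) (hl : ∀ e ∈ B, ∃ c ∈ lb, vl v c = true ∧ e = ed φ c)
    (hT : Treated v MA MB lb C) (hnt : NT A B)
    (h : fin0 v (Nat.lor (Nat.lor MA MB) C) C = true) : ∀ f, Free A B f → W A (insert f B) := by
  obtain ⟨h1, h⟩ := cond_ff h
  obtain ⟨h2, h3⟩ := cond_ff h
  have old : ∀ x y, x < y → y < v → Free A B s(φ x, φ y) → W A (insert s(φ x, φ y) B) := by
    intro x y hxy hy hf
    have h4 := allB_sound _ _ (allB_sound _ _ h1 y hy) x hxy
    rw [bt_lor, bt_lor, Bool.or_eq_true, Bool.or_eq_true, bt_eq, bt_eq, bt_eq, cd_eq] at h4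
    rcases h4 with (h4 | h4) | h4
    · exact absurd ((hA.1 x (by omega) y (by omega)).1 h4).2.2.2 hf.2.1
    · exact absurd ((hB.1 x (by omega) y (by omega)).1 h4).2.2.2 hf.2.2
    · exact treated_old hN (by omega) hi' hA hB hl hT hxy hy h4 (hnt _ hf)
  have new1 : ∀ x < v, ∀ b : Fin N, (∀ y < v, φ y ≠ b) → Free A B s(φ x, b) →
      W A (insert s(φ x, b) B) := by
    intro x hx b hb hf
    have h4 := allB_sound _ _ h2 x hx
    rw [bt_eq, cd_eq] at h4
    have h5 := hT x v hx (by omega) h4
    have hnv : nv v (cd x v) = v + 1 := by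
      unfold nv
      rw [lo_cd (by omega)]
      have e1 : Nat.ble (Nat.succ v) v = false := by
        rw [← Bool.not_eq_true]
        intro h'
        have := ble_true h'
        omega
      have e2 : Nat.beq v v = true := Nat.beq_refl v
      rw [e1, e2]
      rfl
    have hc : vl (v + 1) (cd x v) = true := by
      rw [vl_iff, hi_cd (by omega), lo_cd (by omega)]
      omega
    have hed : ed (Function.update φ v b) (cd x v) = s(φ x, b) := by
      rw [ed, hi_cd (by omega), lo_cd (by omega), Function.update_self,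
        Function.update_of_ne (by omega)]
    rw [hnv] at h5
    have hk := hnt _ hf
    rw [← hed] at hk ⊢
    have hi2 := inj_update hi' hb
    exact h5 N hN _ A _ hi2 (rep_update hb hA) (rep_insert hi2 (rep_update hb hB) hc)
      (cover_insert hc (cover_update hl b)) hk
  intro f
  induction f using Sym2.ind with
  | _ a b =>
    intro hf
    have hab : a ≠ b := by
      intro h'
      exact hf.1 (by simpa using h')
    by_cases ha : ∃ x < v, φ x = a
    · obtain ⟨x, hx, rfl⟩ := ha
      by_cases hb : ∃ y < v, φ y = b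
      · obtain ⟨y, hy, rfl⟩ := hb
        rcases lt_trichotomy x y with hxy | hxy | hxy
        · exact old x y hxy hy hf
        · exact absurd (by rw [hxy]) hab
        · rw [Sym2.eq_swap] at hf ⊢
          exact old y x hxy hx hf
      · push Not at hb
        exact new1 x hx b hb hf
    · push Not at ha
      by_cases hb : ∃ y < v, φ y = b
      · obtain ⟨y, hy, rfl⟩ := hb
        rw [Sym2.eq_swap] at hf ⊢
        exact new1 y hy a ha hf
      · push Not at hb
        -- two new vertices
        rw [bt_eq, cd_eq] at h3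
        have h5 := hT v (v + 1) (by omega) (by omega) h3
        have hnv : nv v (cd v (v + 1)) = v + 1 + 1 := by
          unfold nv
          rw [lo_cd (by omega), hi_cd (by omega)]
          have e1 : Nat.ble (Nat.succ (v + 1)) v = false := by
            rw [← Bool.not_eq_true]
            intro h'
            have := ble_true h'
            omega
          have e2 : Nat.beq (v + 1) v = false := by
            rw [← Bool.not_eq_true]
            intro h'
            have := beq_true h'
            omega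
          have e3 : Nat.beq v v = true := Nat.beq_refl v
          rw [e1, e2, e3]
          rfl
        have hc : vl (v + 1 + 1) (cd v (v + 1)) = true := by
          rw [vl_iff, hi_cd (by omega), lo_cd (by omega)]
          omega
        have hi2 := inj_update hi' ha
        have hb2 : ∀ x < v + 1, Function.update φ v a x ≠ b := by
          intro x hx
          by_cases hxv : x = v
          · rw [hxv, Function.update_self]; exact hab
          · rw [Function.update_of_ne hxv]; exact hb x (by omega)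
        have hi3 := inj_update hi2 hb2
        have hed : ed (Function.update (Function.update φ v a) (v + 1) b) (cd v (v + 1)) =
            s(a, b) := by
          rw [ed, hi_cd (by omega), lo_cd (by omega), Function.update_self,
            Function.update_of_ne (by omega), Function.update_self]
        rw [hnv] at h5
        have hk := hnt _ hf
        rw [← hed] at hk ⊢
        exact h5 N hN _ A _ hi3 (rep_update hb2 (rep_update ha hA))
          (rep_insert hi3 (rep_update hb2 (rep_update ha hB)) hc)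
          (cover_insert hc (cover_update (cover_update hl a) b)) hk

/-- soundness of the check of one entry -/
theorem chk_sound {T : Tab} {n j0 s : ℕ} (IH : ∀ j, j0 < j → j < n → GoodE T j)
    (h : chk T n j0 s = true) : GoodE T j0 := by
  unfold chk at h
  rw [tget_eq] at h
  set v := (hdr T j0).1 with hvdef
  set A' := unpk 64 (hdr T j0).2.1 with hA'
  set B' := unpk 64 (hdr T j0).2.2 with hB'
  obtain ⟨g1, h⟩ := cond_ff h
  obtain ⟨g2, h⟩ := cond_ff h
  obtain ⟨g3, h⟩ := cond_ff h
  obtain ⟨g4, h⟩ := cond_ff h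
  obtain ⟨g5, h⟩ := cond_ff h
  obtain ⟨g6, h⟩ := cond_ff h
  have hv1 := ble_true g1
  have hv14 := ble_true g2
  have hAv := vls_all v A' g3
  have hBv := vls_all v B' g4
  intro N hN φ A B hi' hLA hLB hk
  have hA : Rep φ v (matp idp A') A := repL_rep hi' hAv hLA
  have hB : Rep φ v (matp idp B') B := repL_rep hi' hBv hLB
  have hl : ∀ e ∈ B, ∃ c ∈ B', vl v c = true ∧ e = ed φ c := by
    intro e he
    obtain ⟨c, hc, hce⟩ := (hLB e).1 he
    exact ⟨c, hc, hBv c hc, hce⟩
  have hnt : NT A B := nt_sound (by omega) hA hB hl hk g5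
  refine ⟨some_sound hN hv1 (by omega) hi' hA hB g6, hnt, ?_⟩
  have hT0 : Treated v (matp idp A') (matp idp B') B' 0 := by
    intro x y _ _ hb
    simp at hb
  cases hc : Nat.beq (Nat.land s 255) 1 with
  | true =>
    rw [hc, cond_true] at h
    obtain ⟨s', U', Z', hk', _, _, hSU, hSZ, hseq⟩ :=
      cov_sound _ _ _ _ _ _ _ _ _ (show v ≤ 16 by omega) (fun i hi' => hi')
        (symM_matp _ _) (fun x y _ _ hb => by simp at hb) (symM_matp _ _) h
    obtain ⟨C', hfin, hT⟩ := chi_sound hv14 IH _ _ _ _ hT0 hk'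
    exact fin1_sound hN (by omega) hi' hA hB hl hT hnt hSU hSZ
      (hseq N hN φ A B hi' hA hB hl hk) hfin
  | false =>
    rw [hc, cond_false] at h
    obtain ⟨C', hfin, hT⟩ := chi_sound hv14 IH _ _ _ _ hT0 h
    exact fin0_sound hN hv14 hi' hA hB hl hT hnt hfin

/-- all entries with index in `[a, b)` pass the check -/
def Ok (T : Tab) (n a b : ℕ) : Prop := ∀ j, a ≤ j → j < b → ∃ s, chk T n j s = true

theorem ok_of (T : Tab) (n : ℕ) : ∀ (l : List ℕ) (a : ℕ), chkL T n l a = true →
    Ok T n a (a + l.length) := by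
  intro l
  induction l with
  | nil =>
    intro a _ j h1 h2
    simp at h2
    omega
  | cons s l ih =>
    intro a h j h1 h2
    obtain ⟨h3, h4⟩ := cond_ff (show cond (chk T n a s) (chkL T n l (a + 1)) false = true from h)
    by_cases hj : j = a
    · rw [hj]; exact ⟨s, h3⟩
    · rw [List.length_cons] at h2
      exact ih (a + 1) h4 j (by omega) (by omega)

theorem Ok.trans {T : Tab} {n a b c : ℕ} (h1 : Ok T n a b) (h2 : Ok T n b c) : Ok T n a c := by
  intro j ha hc
  by_cases hb : j < b
  · exact h1 j ha hb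
  · exact h2 j (by omega) hc

theorem good_all {T : Tab} {n : ℕ} (h : Ok T n 0 n) : ∀ j < n, GoodE T j := by
  have key : ∀ k, ∀ j, j < n → n ≤ j + k → GoodE T j := by
    intro k
    induction k with
    | zero => intro j h1 h2; omega
    | succ k ih =>
      intro j hj hjk
      obtain ⟨s, hs⟩ := h j (by omega) hj
      exact chk_sound (fun j' h1 h2 => ih j' h2 (by omega)) hs
  intro j hj
  exact key n j hj (by omega)

/-- if entry `0` is the position after the first move, the first player wins on all boards with at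
least `11` vertices -/
theorem main_of {T : Tab} {n : ℕ} (h : Ok T n 0 n) (hn : 0 < n) (h0 : hdr T 0 = (2, 1, 0)) :
    ∀ N, 11 ≤ N → FirstWins (⊤ : SimpleGraph (Fin 4)) (∅ : Finset (Sym2 (Fin N))) ∅ := by
  intro N hN
  have hg := good_all h 0 hn N hN (fun i => ⟨min i 10, by omega⟩) {s(⟨0, by omega⟩, ⟨1, by omega⟩)} ∅
  rw [h0] at hg
  have hg' := hg ?_ ?_ ?_ ?_
  · have he : Free (∅ : Finset (Sym2 (Fin N))) ∅ s(⟨0, by omega⟩, ⟨1, by omega⟩) := by
      refine ⟨?_, by simp, by simp⟩
      intro h'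
      simp at h'
    exact W_move he (by simpa using hg')
  · intro x hx y hy hxy
    rw [Fin.mk.injEq] at hxy
    simp only at hx hy
    omega
  · intro e
    have h1 : unpk 64 (2, 1, 0).2.1 = [1] := rfl
    rw [h1]
    simp only [Finset.mem_singleton, List.mem_singleton, exists_eq_left]
    rfl
  · intro e
    have h1 : unpk 64 (2, 1, 0).2.2 = [] := rfl
    rw [h1]
    simp
  · rintro ⟨S, hS, hall⟩
    obtain ⟨a, ha, b, hb, hab⟩ := Finset.one_lt_card.1 (show 1 < S.card by omega)
    exact absurd (hall a ha b hb hab) (by simp)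

end Pool.Agent.K4G
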